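import Mathlib

namespace Pool.H64.GRID

/-- A nondegenerate binary quadratic form over the field with `p` elements, `p` odd, takes a
nonsquare value. -/
theorem exists_nonsq_value {p : ℕ} [Fact p.Prime] (hp : p ≠ 2) (e g f : ZMod p)
    (hG : 4 * e * f - g ^ 2 ≠ 0) :
    ∃ x y : ZMod p, ¬ IsSquare (e * x ^ 2 + g * x * y + f * y ^ 2) := by
  have hchar : ringChar (ZMod p) ≠ 2 := by
    rw [ZMod.ringChar_zmod_n]; exact hp
  have h2 : (2 : ZMod p) ≠ 0 := Ring.two_ne_zero hchar
  obtain ⟨ν, hν⟩ := FiniteField.exists_nonsquare hchar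
  by_cases he : e = 0
  · have hg : g ≠ 0 := by
      intro h; apply hG; rw [he, h]; ring
    refine ⟨(ν - f) / g, 1, ?_⟩
    have : e * ((ν - f) / g) ^ 2 + g * ((ν - f) / g) * 1 + f * 1 ^ 2 = ν := by
      rw [he]; field_simp; ring
    rw [this]; exact hν
  · set G := 4 * e * f - g ^ 2 with hGdef
    obtain ⟨r, y, hry⟩ := FiniteField.exists_root_sum_quadratic (R := ZMod p)
      (f := Polynomial.X ^ 2) (g := Polynomial.C G * Polynomial.X ^ 2 - Polynomial.C (4 * e * ν))
      (by simp)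
      (by
        rw [Polynomial.degree_sub_eq_left_of_degree_lt]
        · rw [Polynomial.degree_C_mul hG]; simp
        · rw [Polynomial.degree_C_mul hG]
          refine lt_of_le_of_lt Polynomial.degree_C_le ?_
          simp)
      (by
        rw [ZMod.card]
        exact (Nat.Prime.eq_two_or_odd (Fact.out : p.Prime)).resolve_left hp)
    have hry' : r ^ 2 + (G * y ^ 2 - 4 * e * ν) = 0 := by simpa using hry
    refine ⟨(r - g * y) / (2 * e), y, ?_⟩
    have h4 : (2 * e) ≠ 0 := mul_ne_zero h2 he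
    have : e * ((r - g * y) / (2 * e)) ^ 2 + g * ((r - g * y) / (2 * e)) * y + f * y ^ 2 = ν := by
      have h5 : (4 * e) * (e * ((r - g * y) / (2 * e)) ^ 2 + g * ((r - g * y) / (2 * e)) * y
          + f * y ^ 2) = (4 * e) * ν := by
        have h6 : (2 * e) * ((r - g * y) / (2 * e)) = r - g * y := by field_simp
        set x := (r - g * y) / (2 * e) with hx
        have h7 : (2 * e * x + g * y) ^ 2 + G * y ^ 2 = 4 * e * ν := by
          rw [h6]; linear_combination hry'
        rw [hGdef] at h7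
        linear_combination h7
      have h8 : (4 * e) ≠ 0 := by
        have : (4 : ZMod p) * e = 2 * (2 * e) := by ring
        rw [this]; exact mul_ne_zero h2 h4
      exact mul_left_cancel₀ h8 h5
    rw [this]; exact hν

/-- The linear form of the third projective coordinate. -/
def Zf (G a b : ℤ) (i j : ℕ) : ℤ := (G - b) * ((i : ℤ) - 1) + (G - a) * ((j : ℤ) - 1) + (a + b - G)

/-- Injectivity modulo `p` of the projective parametrisation. -/
theorem inj_mod {p : ℕ} [Fact p.Prime] (G a b I J I' J' A B Z Z' : ZMod p)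
    (hG : G ≠ 0) (ha : a ≠ 0) (hb : b ≠ 0) (hc : a + b - G ≠ 0)
    (hZ : Z = (G - b) * I + (G - a) * J + (a + b - G))
    (hZ' : Z' = (G - b) * I' + (G - a) * J' + (a + b - G))
    (hA : A * Z = G * a * I) (hB : B * Z = G * b * J)
    (hA' : A * Z' = G * a * I') (hB' : B * Z' = G * b * J') : I = I' ∧ J = J' := by
  have hZ0 : Z ≠ 0 := by
    intro h
    rw [h, mul_zero] at hA hB
    have hI : I = 0 := by
      have := hA.symm
      rcases mul_eq_zero.1 this with h1 | h1
      · exact absurd h1 (mul_ne_zero hG ha)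
      · exact h1
    have hJ : J = 0 := by
      have := hB.symm
      rcases mul_eq_zero.1 this with h1 | h1
      · exact absurd h1 (mul_ne_zero hG hb)
      · exact h1
    rw [h, hI, hJ] at hZ
    apply hc
    linear_combination -hZ
  have h1 : I * Z' = I' * Z := by
    apply mul_left_cancel₀ (mul_ne_zero hG ha)
    linear_combination Z * hA' - Z' * hA
  have h2 : J * Z' = J' * Z := by
    apply mul_left_cancel₀ (mul_ne_zero hG hb)
    linear_combination Z * hB' - Z' * hB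
  have h3 : (a + b - G) * (Z - Z') = 0 := by
    linear_combination Z' * hZ - Z * hZ' + (G - b) * h1 + (G - a) * h2
  have h4 : Z = Z' := by
    rcases mul_eq_zero.1 h3 with h | h
    · exact absurd h hc
    · exact sub_eq_zero.1 h
  rw [← h4] at h1 h2
  exact ⟨mul_right_cancel₀ hZ0 h1, mul_right_cancel₀ hZ0 h2⟩

/-- Every odd prime `p < m n` divides `G a b (a + b - G)`. -/
theorem prime_dvd {p m n : ℕ} (hp : p.Prime) (hp2 : p ≠ 2) (hm : 2 ≤ m) (hn : 2 ≤ n)
    (hlt : p < m * n) (e g f G a b : ℤ) (hG : G = 4 * e * f - g ^ 2) (A B : ℕ → ℕ → ℤ)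
    (hA : ∀ i < m, ∀ j < n, A i j * Zf G a b i j = G * a * ((i : ℤ) - 1))
    (hB : ∀ i < m, ∀ j < n, B i j * Zf G a b i j = G * b * ((j : ℤ) - 1))
    (hsq : ∀ i < m, ∀ j < n, ∀ k < m, ∀ l < n,
      IsSquare (e * (A i j - A k l) ^ 2 + g * (A i j - A k l) * (B i j - B k l)
        + f * (B i j - B k l) ^ 2)) :
    (p : ℤ) ∣ G * a * b * (a + b - G) := by
  have : Fact p.Prime := ⟨hp⟩
  by_contra hnd
  have hne : ((G * a * b * (a + b - G) : ℤ) : ZMod p) ≠ 0 := by
    intro h
    exact hnd ((ZMod.intCast_zmod_eq_zero_iff_dvd _ p).1 h)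
  push_cast at hne
  have hc0 : (a : ZMod p) + b - G ≠ 0 := right_ne_zero_of_mul hne
  have hb0 : (b : ZMod p) ≠ 0 := right_ne_zero_of_mul (left_ne_zero_of_mul hne)
  have ha0 : (a : ZMod p) ≠ 0 :=
    right_ne_zero_of_mul (left_ne_zero_of_mul (left_ne_zero_of_mul hne))
  have hG0 : (G : ZMod p) ≠ 0 :=
    left_ne_zero_of_mul (left_ne_zero_of_mul (left_ne_zero_of_mul hne))
  have hdisc : 4 * (e : ZMod p) * f - (g : ZMod p) ^ 2 ≠ 0 := by
    have : ((G : ℤ) : ZMod p) = 4 * (e : ZMod p) * f - (g : ZMod p) ^ 2 := by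
      rw [hG]; push_cast; ring
    rw [← this]; exact hG0
  obtain ⟨x, y, hxy⟩ := exists_nonsq_value hp2 (e : ZMod p) g f hdisc
  set m' := min m p with hm'
  set n' := min n p with hn'
  have hcard : Fintype.card (ZMod p) < Fintype.card (Fin m' × Fin n') := by
    rw [ZMod.card, Fintype.card_prod, Fintype.card_fin, Fintype.card_fin]
    have hpp := hp.two_le
    rcases le_total m p with h1 | h1 <;> rcases le_total n p with h2 | h2
    · rw [hm', hn', min_eq_left h1, min_eq_left h2]; exact hlt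
    · rw [hm', hn', min_eq_left h1, min_eq_right h2]; nlinarith
    · rw [hm', hn', min_eq_right h1, min_eq_left h2]; nlinarith
    · rw [hm', hn', min_eq_right h1, min_eq_right h2]; nlinarith
  obtain ⟨u, v, huv, hphi⟩ := Fintype.exists_ne_map_eq_of_card_lt
    (fun w : Fin m' × Fin n' =>
      y * ((A w.1 w.2 : ℤ) : ZMod p) - x * ((B w.1 w.2 : ℤ) : ZMod p)) hcard
  have hu1 : (u.1 : ℕ) < m := lt_of_lt_of_le u.1.2 (min_le_left _ _)
  have hu2 : (u.2 : ℕ) < n := lt_of_lt_of_le u.2.2 (min_le_left _ _)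
  have hv1 : (v.1 : ℕ) < m := lt_of_lt_of_le v.1.2 (min_le_left _ _)
  have hv2 : (v.2 : ℕ) < n := lt_of_lt_of_le v.2.2 (min_le_left _ _)
  have hu1' : (u.1 : ℕ) < p := lt_of_lt_of_le u.1.2 (min_le_right _ _)
  have hu2' : (u.2 : ℕ) < p := lt_of_lt_of_le u.2.2 (min_le_right _ _)
  have hv1' : (v.1 : ℕ) < p := lt_of_lt_of_le v.1.2 (min_le_right _ _)
  have hv2' : (v.2 : ℕ) < p := lt_of_lt_of_le v.2.2 (min_le_right _ _)
  set dA : ZMod p := ((A u.1 u.2 : ℤ) : ZMod p) - ((A v.1 v.2 : ℤ) : ZMod p) with hdA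
  set dB : ZMod p := ((B u.1 u.2 : ℤ) : ZMod p) - ((B v.1 v.2 : ℤ) : ZMod p) with hdB
  have hpar : y * dA = x * dB := by
    rw [hdA, hdB]; linear_combination hphi
  have hsq' : IsSquare ((e : ZMod p) * dA ^ 2 + g * dA * dB + f * dB ^ 2) := by
    obtain ⟨r, hr⟩ := hsq u.1 hu1 u.2 hu2 v.1 hv1 v.2 hv2
    refine ⟨(r : ZMod p), ?_⟩
    have := congrArg (fun z : ℤ => (z : ZMod p)) hr
    push_cast at this
    rw [hdA, hdB]
    exact this
  have hxy0 : x ≠ 0 ∨ y ≠ 0 := by
    by_contra hcon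
    push Not at hcon
    apply hxy
    rw [hcon.1, hcon.2]
    exact ⟨0, by ring⟩
  obtain ⟨t, htA, htB⟩ : ∃ t : ZMod p, dA = t * x ∧ dB = t * y := by
    rcases hxy0 with h | h
    · refine ⟨dA / x, by field_simp, ?_⟩
      field_simp
      linear_combination -hpar
    · refine ⟨dB / y, ?_, by field_simp⟩
      field_simp
      linear_combination hpar
  have ht0 : t = 0 := by
    by_contra ht
    apply hxy
    obtain ⟨r, hr⟩ := hsq'
    refine ⟨r / t, ?_⟩
    rw [htA, htB] at hr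
    field_simp
    linear_combination hr
  rw [ht0, zero_mul] at htA htB
  have hAe : ((A u.1 u.2 : ℤ) : ZMod p) = ((A v.1 v.2 : ℤ) : ZMod p) := sub_eq_zero.1 htA
  have hBe : ((B u.1 u.2 : ℤ) : ZMod p) = ((B v.1 v.2 : ℤ) : ZMod p) := sub_eq_zero.1 htB
  have castA : ∀ i < m, ∀ j < n, ((A i j : ℤ) : ZMod p) * ((Zf G a b i j : ℤ) : ZMod p)
      = (G : ZMod p) * a * ((i : ZMod p) - 1) := by
    intro i hi j hj
    have := congrArg (fun z : ℤ => (z : ZMod p)) (hA i hi j hj)
    push_cast at this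
    exact this
  have castB : ∀ i < m, ∀ j < n, ((B i j : ℤ) : ZMod p) * ((Zf G a b i j : ℤ) : ZMod p)
      = (G : ZMod p) * b * ((j : ZMod p) - 1) := by
    intro i hi j hj
    have := congrArg (fun z : ℤ => (z : ZMod p)) (hB i hi j hj)
    push_cast at this
    exact this
  have hinj := inj_mod (G : ZMod p) a b (((u.1 : ℕ) : ZMod p) - 1) (((u.2 : ℕ) : ZMod p) - 1)
    (((v.1 : ℕ) : ZMod p) - 1) (((v.2 : ℕ) : ZMod p) - 1)
    ((A u.1 u.2 : ℤ) : ZMod p) ((B u.1 u.2 : ℤ) : ZMod p)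
    ((Zf G a b u.1 u.2 : ℤ) : ZMod p) ((Zf G a b v.1 v.2 : ℤ) : ZMod p)
    hG0 ha0 hb0 hc0 (by simp [Zf]) (by simp [Zf])
    (castA _ hu1 _ hu2) (castB _ hu1 _ hu2)
    (by rw [hAe]; exact castA _ hv1 _ hv2) (by rw [hBe]; exact castB _ hv1 _ hv2)
  have key : ∀ r s : ℕ, r < p → s < p → ((r : ZMod p) - 1) = (s : ZMod p) - 1 → r = s := by
    intro r s hr hs h
    have h' : (r : ZMod p) = (s : ZMod p) := by linear_combination h
    rw [ZMod.natCast_eq_natCast_iff'] at h'
    rwa [Nat.mod_eq_of_lt hr, Nat.mod_eq_of_lt hs] at h'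
  apply huv
  exact Prod.ext (Fin.ext (key _ _ hu1' hv1' hinj.1)) (Fin.ext (key _ _ hu2' hv2' hinj.2))

end Pool.H64.GRID
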