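import Pool.Agent.H64.GRID.Equiv

namespace Pool.H64.GRID

theorem area_id {u1 v1 u2 v2 u3 v3 s c t T : ℝ} :
    ar (T * (s * u1 + c * v1)) (T * (t * v1)) (T * (s * u2 + c * v2)) (T * (t * v2))
      (T * (s * u3 + c * v3)) (T * (t * v3))
      = T ^ 2 * (s * t) * ((u2 - u1) * (v3 - v1) - (v2 - v1) * (u3 - u1)) := by
  simp only [ar]; ring

theorem det_id {i j k l r s lam mu L1 L2 L3 : ℝ} (h1 : L1 ≠ 0) (h2 : L2 ≠ 0) (h3 : L3 ≠ 0)
    (e1 : L1 = 1 + lam * i + mu * j) (e2 : L2 = 1 + lam * k + mu * l)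
    (e3 : L3 = 1 + lam * r + mu * s) :
    (k / L2 - i / L1) * (s / L3 - j / L1) - (l / L2 - j / L1) * (r / L3 - i / L1)
      = ((k - i) * (s - j) - (l - j) * (r - i)) / (L1 * L2 * L3) := by
  have : (k / L2 - i / L1) * (s / L3 - j / L1) - (l / L2 - j / L1) * (r / L3 - i / L1)
      = ((k * L1 - i * L2) * (s * L1 - j * L3) - (l * L1 - j * L2) * (r * L1 - i * L3))
        / (L1 * (L1 * L2 * L3)) := by
    field_simp
  rw [this, div_eq_div_iff (mul_ne_zero h1 (mul_ne_zero (mul_ne_zero h1 h2) h3))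
    (mul_ne_zero (mul_ne_zero h1 h2) h3)]
  have h4 : (k * L1 - i * L2) * (s * L1 - j * L3) - (l * L1 - j * L2) * (r * L1 - i * L3)
      = L1 * ((k - i) * (s - j) - (l - j) * (r - i)) := by
    rw [e1, e2, e3]; ring
  rw [h4]; ring

theorem real_of_sys {m n : ℕ} (h : Sys m n) : ∃ x y : ℕ → ℕ → ℝ,
    (∀ i < m, ∀ j < n, ∀ k < m, ∀ l < n, ∀ r < m, ∀ s < n,
      SignType.sign (arG x y i j k l r s) = SignType.sign ((gar i j k l r s : ℤ) : ℝ)) ∧
    (∀ i < m, ∀ j < n, ∀ k < m, ∀ l < n,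
      ∃ d : ℤ, (x i j - x k l) ^ 2 + (y i j - y k l) ^ 2 = (d : ℝ) ^ 2) ∧
    ∀ i < m, ∀ j < n, ∀ k < m, ∀ l < n, x i j = x k l → y i j = y k l → i = k ∧ j = l := by
  obtain ⟨e, g, f, lam, mu, he, hdisc, hpos, hsq⟩ := h
  have heR : (0 : ℝ) < (e : ℝ) := by exact_mod_cast he
  set s : ℝ := √(e : ℝ) with hs
  have hs0 : 0 < s := Real.sqrt_pos.2 heR
  have hs2 : s ^ 2 = e := Real.sq_sqrt heR.le
  set c : ℝ := g / (2 * s) with hc
  have hsc : 2 * s * c = g := by rw [hc]; field_simp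
  have htp : (0 : ℝ) < f - g ^ 2 / (4 * e) := by
    have h1 : (g : ℝ) ^ 2 < 4 * e * f := by exact_mod_cast hdisc
    rw [sub_pos, div_lt_iff₀ (by positivity)]
    linarith
  set t : ℝ := √((f : ℝ) - g ^ 2 / (4 * e)) with ht
  have ht0 : 0 < t := Real.sqrt_pos.2 htp
  have ht2 : t ^ 2 = f - g ^ 2 / (4 * e) := Real.sq_sqrt htp.le
  have hc2 : c ^ 2 = g ^ 2 / (4 * e) := by
    rw [hc, div_pow, mul_pow, hs2]; norm_num
  -- the square roots
  have hex : ∀ i j k l : ℕ, ∃ r : ℚ, i < m → j < n → k < m → l < n →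
      qf e g f ((i : ℚ) - k + mu * ((i : ℚ) * l - (j : ℚ) * k))
        ((j : ℚ) - l - lam * ((i : ℚ) * l - (j : ℚ) * k)) = r * r := by
    intro i j k l
    by_cases hh : i < m ∧ j < n ∧ k < m ∧ l < n
    · obtain ⟨r, hr⟩ := hsq i hh.1 j hh.2.1 k hh.2.2.1 l hh.2.2.2
      exact ⟨r, fun _ _ _ _ => hr⟩
    · refine ⟨0, fun h1 h2 h3 h4 => absurd ⟨h1, h2, h3, h4⟩ hh⟩
  choose R hR using hex
  set rho : ℕ × ℕ × ℕ × ℕ → ℚ := fun q => R q.1 q.2.1 q.2.2.1 q.2.2.2 /
    ((1 + lam * (q.1 : ℚ) + mu * (q.2.1 : ℚ)) * (1 + lam * (q.2.2.1 : ℚ) + mu * (q.2.2.2 : ℚ)))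
    with hrho
  set W := Finset.range m ×ˢ (Finset.range n ×ˢ (Finset.range m ×ˢ Finset.range n)) with hW
  set T : ℕ := ∏ q ∈ W, (rho q).den with hT
  have hTpos : (0 : ℝ) < T := by
    have : 0 < T := Finset.prod_pos fun q _ => (rho q).den_pos
    exact_mod_cast this
  set L : ℕ → ℕ → ℝ := fun i j => 1 + (lam : ℝ) * i + mu * j with hL
  have hLpos : ∀ i < m, ∀ j < n, 0 < L i j := by
    intro i hi j hj
    have := hpos i hi j hj
    have h2 : (0 : ℝ) < ((1 + lam * (i : ℚ) + mu * (j : ℚ) : ℚ) : ℝ) := by exact_mod_cast this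
    push_cast at h2
    exact h2
  refine ⟨fun i j => T * (s * ((i : ℝ) / L i j) + c * ((j : ℝ) / L i j)),
    fun i j => T * (t * ((j : ℝ) / L i j)), ?_, ?_, ?_⟩
  · intro i hi j hj k hk l hl r hr s' hs'
    have p1 := hLpos i hi j hj
    have p2 := hLpos k hk l hl
    have p3 := hLpos r hr s' hs'
    simp only [arG]
    rw [area_id, det_id p1.ne' p2.ne' p3.ne' rfl rfl rfl]
    have e1 : (T : ℝ) ^ 2 * (s * t) * ((((k : ℝ) - i) * ((s' : ℝ) - j)
        - ((l : ℝ) - j) * ((r : ℝ) - i)) / (L i j * L k l * L r s'))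
        = ((T : ℝ) ^ 2 * (s * t) / (L i j * L k l * L r s')) *
          ((gar i j k l r s' : ℤ) : ℝ) := by
      simp only [gar]; push_cast; ring
    rw [e1, sign_mul, sign_pos (by positivity), one_mul]
  · intro i hi j hj k hk l hl
    have p1 := hLpos i hi j hj
    have p2 := hLpos k hk l hl
    have hr := hR i j k l hi hj hk hl
    have hmem : (i, j, k, l) ∈ W := by
      simp only [hW, Finset.mem_product, Finset.mem_range]
      exact ⟨hi, hj, hk, hl⟩
    have hdvd : (rho (i, j, k, l)).den ∣ T := Finset.dvd_prod_of_mem (fun q => (rho q).den) hmem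
    obtain ⟨w, hw⟩ := hdvd
    refine ⟨w * (rho (i, j, k, l)).num, ?_⟩
    have hTr : (T : ℝ) * ((rho (i, j, k, l) : ℚ) : ℝ) = ((w * (rho (i, j, k, l)).num : ℤ) : ℝ) := by
      have h1 : (T : ℚ) * rho (i, j, k, l) = ((w * (rho (i, j, k, l)).num : ℤ) : ℚ) := by
        rw [hw]
        push_cast
        have := Rat.mul_den_eq_num (rho (i, j, k, l))
        linear_combination (w : ℚ) * this
      exact_mod_cast h1
    rw [← hTr]
    set X : ℝ := (i : ℝ) * L k l - k * L i j with hX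
    set Y : ℝ := (j : ℝ) * L k l - l * L i j with hY
    have hx : (T : ℝ) * (s * ((i : ℝ) / L i j) + c * ((j : ℝ) / L i j))
        - T * (s * ((k : ℝ) / L k l) + c * ((l : ℝ) / L k l))
        = T * ((s * X + c * Y) / (L i j * L k l)) := by
      rw [hX, hY]; field_simp; ring
    have hy : (T : ℝ) * (t * ((j : ℝ) / L i j)) - T * (t * ((l : ℝ) / L k l))
        = T * ((t * Y) / (L i j * L k l)) := by
      rw [hY]; field_simp
    rw [hx, hy]
    have hquad : (s * X + c * Y) ^ 2 + (t * Y) ^ 2 = e * X ^ 2 + g * X * Y + f * Y ^ 2 := by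
      have h1 : (s * X + c * Y) ^ 2 + (t * Y) ^ 2
          = s ^ 2 * X ^ 2 + (2 * s * c) * X * Y + (c ^ 2 + t ^ 2) * Y ^ 2 := by ring
      rw [h1, hs2, hsc, hc2, ht2]; ring
    have hX' : X = (i : ℝ) - k + mu * ((i : ℝ) * l - (j : ℝ) * k) := by
      rw [hX]; simp only [hL]; ring
    have hY' : Y = (j : ℝ) - l - lam * ((i : ℝ) * l - (j : ℝ) * k) := by
      rw [hY]; simp only [hL]; ring
    have hrR : (e : ℝ) * X ^ 2 + g * X * Y + f * Y ^ 2 = (R i j k l : ℝ) ^ 2 := by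
      rw [hX', hY']
      have h1 : ((qf e g f ((i : ℚ) - k + mu * ((i : ℚ) * l - (j : ℚ) * k))
        ((j : ℚ) - l - lam * ((i : ℚ) * l - (j : ℚ) * k)) : ℚ) : ℝ)
          = ((R i j k l * R i j k l : ℚ) : ℝ) := by exact_mod_cast hr
      simp only [qf] at h1
      push_cast at h1
      rw [h1]; ring
    have hrhoR : ((rho (i, j, k, l) : ℚ) : ℝ) = (R i j k l : ℝ) / (L i j * L k l) := by
      simp only [hrho, hL]; push_cast; ring
    rw [hrhoR]
    have h5 : ((T : ℝ) * ((s * X + c * Y) / (L i j * L k l))) ^ 2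
        + ((T : ℝ) * ((t * Y) / (L i j * L k l))) ^ 2
        = (T : ℝ) ^ 2 * ((s * X + c * Y) ^ 2 + (t * Y) ^ 2) / (L i j * L k l) ^ 2 := by
      field_simp
    rw [h5, hquad, hrR]
    field_simp
  · intro i hi j hj k hk l hl hx hy
    have p1 := hLpos i hi j hj
    have p2 := hLpos k hk l hl
    simp only at hx hy
    have hx1 := mul_left_cancel₀ hTpos.ne' hx
    have hy1 := mul_left_cancel₀ ht0.ne' (mul_left_cancel₀ hTpos.ne' hy)
    rw [hy1] at hx1
    have hx2 : s * ((i : ℝ) / L i j) = s * ((k : ℝ) / L k l) := by linarith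
    have hx3 := mul_left_cancel₀ hs0.ne' hx2
    rw [div_eq_div_iff p1.ne' p2.ne'] at hx3 hy1
    have hLL : L k l = L i j := by
      have h1 : L k l - L i j = -lam * ((i : ℝ) * L k l - k * L i j)
          - mu * ((j : ℝ) * L k l - l * L i j) := by
        simp only [hL]; ring
      rw [hx3, hy1] at h1
      linarith
    rw [hLL] at hx3 hy1
    have hi' := mul_right_cancel₀ p1.ne' hx3
    have hj' := mul_right_cancel₀ p1.ne' hy1
    exact ⟨by exact_mod_cast hi', by exact_mod_cast hj'⟩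

end Pool.H64.GRID
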