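import Mathlib

/-!
# Realizations of the grid order types: definitions (problem MP_cca62e_co)
-/

set_option autoImplicit false

namespace Pool.Grid

/-- Twice the signed area of the triangle `a b c`, i.e. `det (b - a, c - a)`. -/
noncomputable def area (a b c : EuclideanSpace ℝ (Fin 2)) : ℝ :=
  (b 0 - a 0) * (c 1 - a 1) - (b 1 - a 1) * (c 0 - a 0)

/-- The point `(i, j)` of the grid `{0, …, m-1} × {0, …, n-1}`. -/
noncomputable def gridPoint {m n : ℕ} (p : Fin m × Fin n) : EuclideanSpace ℝ (Fin 2) :=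
  !₂[((p.1 : ℕ) : ℝ), ((p.2 : ℕ) : ℝ)]

/-- `f` is a realization of the order type of `GRID(m,n)`: it is injective and preserves the
orientation (counterclockwise, clockwise, collinear) of every ordered triple. -/
def IsRealization {m n : ℕ} (f : Fin m × Fin n → EuclideanSpace ℝ (Fin 2)) : Prop :=
  Function.Injective f ∧
    ∀ a b c, SignType.sign (area (f a) (f b) (f c)) =
      SignType.sign (area (gridPoint a) (gridPoint b) (gridPoint c))

/-- All distances between points of the image of `f` are integers. -/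
def IntegerDistances {m n : ℕ} (f : Fin m × Fin n → EuclideanSpace ℝ (Fin 2)) : Prop :=
  ∀ a b, ∃ k : ℤ, dist (f a) (f b) = k

/-- `GRID(m,n)` has an integer-distance realization. -/
def HasIntegerRealization (m n : ℕ) : Prop :=
  ∃ f : Fin m × Fin n → EuclideanSpace ℝ (Fin 2), IsRealization f ∧ IntegerDistances f

/-- Some invertible projective map of the plane sends every `f (i, j)` to `(i, j)`. -/
def IsProjectiveImage {m n : ℕ} (f : Fin m × Fin n → EuclideanSpace ℝ (Fin 2)) : Prop :=
  ∃ K : Matrix (Fin 3) (Fin 3) ℝ, K.det ≠ 0 ∧ ∀ p : Fin m × Fin n, ∃ t : ℝ, t ≠ 0 ∧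
    K.mulVec ![f p 0, f p 1, 1] = t • ![((p.1 : ℕ) : ℝ), ((p.2 : ℕ) : ℝ), 1]

/-- The value of the binary quadratic form with coefficients `e, g, f`. -/
def form (e g f X Y : ℚ) : ℚ := e * X ^ 2 + g * X * Y + f * Y ^ 2

/-- The rational system: `e, g, f, lam, mu` rational, `e > 0`, `g² < 4 e f`,
`1 + lam i + mu j > 0` at all grid points, and for all grid points `(i, j)`, `(k, l)` the form
takes at `X = i - k + mu (i l - j k)`, `Y = j - l - lam (i l - j k)` the square of a rational. -/
def System (m n : ℕ) : Prop :=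
  ∃ e g f lam mu : ℚ, 0 < e ∧ g ^ 2 < 4 * e * f ∧
    (∀ i < m, ∀ j < n, 0 < 1 + lam * (i : ℚ) + mu * (j : ℚ)) ∧
    ∀ i < m, ∀ j < n, ∀ k < m, ∀ l < n,
      IsSquare (form e g f ((i : ℚ) - k + mu * ((i : ℚ) * l - (j : ℚ) * k))
        ((j : ℚ) - l - lam * ((i : ℚ) * l - (j : ℚ) * k)))

end Pool.Grid
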