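import Pool.Agent.H64.GRID.Geo

namespace Pool.H64.GRID

variable {m n : ℕ} {x y : ℕ → ℕ → ℝ}

/-- All distances are integers. -/
def Int2 (x y : ℕ → ℕ → ℝ) : Prop :=
  ∀ i j k l : ℕ, ∃ d : ℤ, (x i j - x k l) ^ 2 + (y i j - y k l) ^ 2 = (d : ℝ) ^ 2

theorem int_dot (h : Int2 x y) (i j k l i' j' k' l' : ℕ) : ∃ z : ℤ, (z : ℝ) =
    2 * ((x k l - x i j) * (x k' l' - x i' j') + (y k l - y i j) * (y k' l' - y i' j')) := by
  obtain ⟨a, ha⟩ := h k l i' j'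
  obtain ⟨b, hb⟩ := h i j k' l'
  obtain ⟨c, hc⟩ := h k l k' l'
  obtain ⟨d, hd⟩ := h i j i' j'
  refine ⟨a ^ 2 + b ^ 2 - c ^ 2 - d ^ 2, ?_⟩
  push_cast
  linear_combination -ha - hb + hc + hd

theorem int_ar2 (h : Int2 x y) (i j k l r s i' j' k' l' r' s' : ℕ) : ∃ z : ℤ, (z : ℝ) =
    4 * arG x y i j k l r s * arG x y i' j' k' l' r' s' := by
  obtain ⟨a, ha⟩ := int_dot h i j k l i' j' k' l'
  obtain ⟨b, hb⟩ := int_dot h i j r s i' j' r' s'
  obtain ⟨c, hc⟩ := int_dot h i j k l i' j' r' s'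
  obtain ⟨d, hd⟩ := int_dot h i j r s i' j' k' l'
  refine ⟨a * b - c * d, ?_⟩
  push_cast
  rw [ha, hb, hc, hd]
  simp only [arG, ar]
  ring

theorem fx (x y : ℕ → ℕ → ℝ) (i j : ℕ) : al x y i j * (x 2 1 - x 1 1) + be x y i j * (x 1 2 - x 1 1)
    = S0 x y * (x i j - x 1 1) := by
  simp only [S0, al, be, arG, ar]; ring

theorem fy (x y : ℕ → ℕ → ℝ) (i j : ℕ) : al x y i j * (y 2 1 - y 1 1) + be x y i j * (y 1 2 - y 1 1)
    = S0 x y * (y i j - y 1 1) := by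
  simp only [S0, al, be, arG, ar]; ring

theorem form_eq {p q r s dA dB S X Y : ℝ} (h1 : dA * p + dB * r = S * X)
    (h2 : dA * q + dB * s = S * Y) :
    (p ^ 2 + q ^ 2) * dA ^ 2 + 2 * (p * r + q * s) * dA * dB + (r ^ 2 + s ^ 2) * dB ^ 2
      = S ^ 2 * (X ^ 2 + Y ^ 2) := by
  have h3 : (dA * p + dB * r) ^ 2 + (dA * q + dB * s) ^ 2 = (S * X) ^ 2 + (S * Y) ^ 2 := by
    rw [h1, h2]
  linear_combination h3

theorem prime_dvd_N (H : Real4 m n x y) (h : Int2 x y) :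
    ∃ N : ℤ, N ≠ 0 ∧ (N : ℝ) = 16 * (S0 x y * S1 x y * S2 x y * S3 x y) ∧
      ∀ p : ℕ, p.Prime → p ≠ 2 → p < m * n → (p : ℤ) ∣ N := by
  obtain ⟨G, hG⟩ := int_ar2 h 1 1 2 1 1 2 1 1 2 1 1 2
  obtain ⟨a, ha⟩ := int_ar2 h 1 1 2 1 1 2 1 1 2 2 1 2
  obtain ⟨b, hb⟩ := int_ar2 h 1 1 2 1 1 2 1 1 2 1 2 2
  obtain ⟨c, hc⟩ := int_ar2 h 1 1 2 1 1 2 2 1 2 2 1 2
  obtain ⟨t, ht⟩ := int_ar2 h 1 1 2 2 1 2 1 1 2 2 1 2
  obtain ⟨u, hu⟩ := int_ar2 h 1 1 2 1 2 2 2 1 2 2 1 2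
  obtain ⟨v, hv⟩ := int_ar2 h 1 1 2 2 1 2 2 1 2 2 1 2
  obtain ⟨w, hw⟩ := int_ar2 h 1 1 2 2 1 2 1 1 2 1 2 2
  have hG' : (G : ℝ) = 4 * S0 x y * S0 x y := hG
  have ha' : (a : ℝ) = 4 * S0 x y * S1 x y := ha
  have hb' : (b : ℝ) = 4 * S0 x y * S2 x y := hb
  have hc' : (c : ℝ) = 4 * S0 x y * S3 x y := hc
  have ht' : (t : ℝ) = 4 * S1 x y * S1 x y := ht
  have hu' : (u : ℝ) = 4 * S2 x y * S3 x y := hu
  have hv' : (v : ℝ) = 4 * S1 x y * S3 x y := hv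
  have hw' : (w : ℝ) = 4 * S1 x y * S2 x y := hw
  have hcabG : c = a + b - G := by
    have : (c : ℝ) = ((a + b - G : ℤ) : ℝ) := by
      push_cast
      rw [ha', hb', hc', hG', S3_eq]; ring
    exact_mod_cast this
  refine ⟨a * u, ?_, ?_, ?_⟩
  · have : ((a * u : ℤ) : ℝ) ≠ 0 := by
      push_cast
      rw [ha', hu']
      have := H.S0_ne; have := H.S1_ne; have := H.S2_ne; have := H.S3_ne
      positivity
    exact_mod_cast this
  · push_cast; rw [ha', hu']; ring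
  intro p hp hp2 hlt
  obtain ⟨e, he⟩ := h 2 1 1 1
  obtain ⟨f, hf⟩ := h 1 2 1 1
  obtain ⟨g, hg⟩ := int_dot h 1 1 2 1 1 1 1 2
  choose A hA using fun i j : ℕ => int_ar2 h 1 1 2 1 1 2 1 1 i j 1 2
  choose B hB using fun i j : ℕ => int_ar2 h 1 1 2 1 1 2 1 1 2 1 i j
  have hA' : ∀ i j, (A i j : ℝ) = 4 * S0 x y * al x y i j := hA
  have hB' : ∀ i j, (B i j : ℝ) = 4 * S0 x y * be x y i j := hB
  have hZ : ∀ i j : ℕ, ((Zf G a b i j : ℤ) : ℝ) = 4 * S0 x y * ((S0 x y - S2 x y) * ((i : ℝ) - 1)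
      + (S0 x y - S1 x y) * ((j : ℝ) - 1) + S3 x y) := by
    intro i j
    simp only [Zf]
    push_cast
    rw [hG', ha', hb', S3_eq]; ring
  have hdvd : (p : ℤ) ∣ G * a * b * (a + b - G) := by
    refine prime_dvd hp hp2 (le_trans (by norm_num) H.hm) (le_trans (by norm_num) H.hn) hlt
      (e ^ 2) g (f ^ 2) G a b ?_ A B ?_ ?_ ?_
    · have : (G : ℝ) = ((4 * e ^ 2 * f ^ 2 - g ^ 2 : ℤ) : ℝ) := by
        push_cast
        rw [hG', hg, ← he, ← hf]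
        simp only [S0, arG, ar]
        ring
      exact_mod_cast this
    · intro i hi j hj
      have : ((A i j * Zf G a b i j : ℤ) : ℝ) = ((G * a * ((i : ℤ) - 1) : ℤ) : ℝ) := by
        push_cast
        rw [hZ, hA', hG', ha']
        linear_combination 16 * S0 x y * S0 x y * H.al_eq hi hj
      exact_mod_cast this
    · intro i hi j hj
      have : ((B i j * Zf G a b i j : ℤ) : ℝ) = ((G * b * ((j : ℤ) - 1) : ℤ) : ℝ) := by
        push_cast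
        rw [hZ, hB', hG', hb']
        linear_combination 16 * S0 x y * S0 x y * H.be_eq hi hj
      exact_mod_cast this
    · intro i hi j hj k hk l hl
      obtain ⟨d, hd⟩ := h i j k l
      refine ⟨G * d, ?_⟩
      have : ((e ^ 2 * (A i j - A k l) ^ 2 + g * (A i j - A k l) * (B i j - B k l)
        + f ^ 2 * (B i j - B k l) ^ 2 : ℤ) : ℝ) = ((G * d * (G * d) : ℤ) : ℝ) := by
        push_cast
        have h1 : (G : ℝ) * d * (G * d) = G ^ 2 * (d : ℝ) ^ 2 := by ring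
        rw [h1, ← hd, hg, ← he, ← hf]
        refine form_eq ?_ ?_
        · rw [hA', hA', hB', hB', hG']
          linear_combination 4 * S0 x y * fx x y i j - 4 * S0 x y * fx x y k l
        · rw [hA', hA', hB', hB', hG']
          linear_combination 4 * S0 x y * fy x y i j - 4 * S0 x y * fy x y k l
      exact_mod_cast this
  have hpp : Prime (p : ℤ) := Nat.prime_iff_prime_int.1 hp
  rcases hpp.dvd_or_dvd hdvd with h1 | h1
  · rcases hpp.dvd_or_dvd h1 with h2 | h2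
    · rcases hpp.dvd_or_dvd h2 with h3 | h3
      · -- p ∣ G
        have e1 : a ^ 2 = G * t := by
          have : ((a ^ 2 : ℤ) : ℝ) = ((G * t : ℤ) : ℝ) := by
            push_cast; rw [ha', hG', ht']; ring
          exact_mod_cast this
        have : (p : ℤ) ∣ a ^ 2 := by rw [e1]; exact Dvd.dvd.mul_right h3 t
        exact Dvd.dvd.mul_right (hpp.dvd_of_dvd_pow this) u
      · exact Dvd.dvd.mul_right h3 u
    · have e1 : a * u = b * v := by
        have : ((a * u : ℤ) : ℝ) = ((b * v : ℤ) : ℝ) := by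
          push_cast; rw [ha', hu', hb', hv']; ring
        exact_mod_cast this
      rw [e1]; exact Dvd.dvd.mul_right h2 v
  · have e1 : a * u = c * w := by
      have : ((a * u : ℤ) : ℝ) = ((c * w : ℤ) : ℝ) := by
        push_cast; rw [ha', hu', hc', hw']; ring
      exact_mod_cast this
    rw [e1, hcabG]; exact Dvd.dvd.mul_right h1 w

/-- `16 area² ≤ 3 D⁴` for a triangle with sides at most `D`. -/
theorem four_ar_sq_le {a a' b b' c c' D : ℝ}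
    (h1 : (a - b) ^ 2 + (a' - b') ^ 2 ≤ D ^ 2) (h2 : (b - c) ^ 2 + (b' - c') ^ 2 ≤ D ^ 2)
    (h3 : (c - a) ^ 2 + (c' - a') ^ 2 ≤ D ^ 2) : 4 * ar a a' b b' c c' ^ 2 ≤ 3 * D ^ 4 := by
  set u := (a - b) ^ 2 + (a' - b') ^ 2 with hu
  set v := (b - c) ^ 2 + (b' - c') ^ 2 with hv
  set w := (c - a) ^ 2 + (c' - a') ^ 2 with hw
  have hE : 4 * ar a a' b b' c c' ^ 2 = 2 * u * v + 2 * v * w + 2 * w * u - u ^ 2 - v ^ 2 - w ^ 2 := by
    rw [hu, hv, hw]; simp only [ar]; ring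
  have hu0 : 0 ≤ u := by rw [hu]; positivity
  have hv0 : 0 ≤ v := by rw [hv]; positivity
  have hw0 : 0 ≤ w := by rw [hw]; positivity
  clear_value u v w
  have key : ∀ u v w : ℝ, 0 ≤ u → 0 ≤ v → u ≤ w → v ≤ w → w ≤ D ^ 2 →
      2 * u * v + 2 * v * w + 2 * w * u - u ^ 2 - v ^ 2 - w ^ 2 ≤ 3 * D ^ 4 := by
    intro u v w h1 h2 h3 h4 h5
    have hw : 0 ≤ w := le_trans h1 h3
    have h6 : w ^ 2 ≤ D ^ 4 := by nlinarith
    have h7 : 2 * u * v + 2 * v * w + 2 * w * u - u ^ 2 - v ^ 2 - w ^ 2 ≤ 3 * w ^ 2 := by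
      nlinarith [sq_nonneg (u - v), mul_nonneg hw (sub_nonneg.2 h3), mul_nonneg hw (sub_nonneg.2 h4)]
    linarith
  rw [hE]
  rcases le_total u v with q1 | q1
  · rcases le_total v w with q2 | q2
    · exact key u v w hu0 hv0 (le_trans q1 q2) q2 h3
    · have := key u w v hu0 hw0 q1 q2 h2
      linarith
  · rcases le_total u w with q2 | q2
    · exact key u v w hu0 hv0 q2 (le_trans q1 q2) h3
    · have := key v w u hv0 hw0 q1 q2 h1
      linarith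

end Pool.H64.GRID
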