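import Pool.Agent.H64.GRID.Div

namespace Pool.H64.GRID

variable {m n : ℕ} {x y : ℕ → ℕ → ℝ}

/-- The third projective coordinate. -/
def La (x y : ℕ → ℕ → ℝ) (i j : ℕ) : ℝ :=
  (S0 x y - S2 x y) * ((i : ℝ) - 1) + (S0 x y - S1 x y) * ((j : ℝ) - 1) + S3 x y

theorem Real4.La_ne (H : Real4 m n x y) {i j : ℕ} (hi : i < m) (hj : j < n) : La x y i j ≠ 0 := by
  intro h0
  have h1 := H.al_eq hi hj
  have h2 := H.be_eq hi hj
  change al x y i j * La x y i j = _ at h1
  change be x y i j * La x y i j = _ at h2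
  rw [h0, mul_zero] at h1 h2
  have hI : (i : ℝ) - 1 = 0 := by
    rcases mul_eq_zero.1 h1.symm with h | h
    · exact absurd h (mul_ne_zero H.S0_ne H.S1_ne)
    · exact h
  have hJ : (j : ℝ) - 1 = 0 := by
    rcases mul_eq_zero.1 h2.symm with h | h
    · exact absurd h (mul_ne_zero H.S0_ne H.S2_ne)
    · exact h
  apply H.S3_ne
  have : La x y i j = S3 x y := by simp only [La]; rw [hI, hJ]; ring
  rw [← this, h0]

theorem det_La (x y : ℕ → ℕ → ℝ) (i j k l r s : ℕ) :
    (((k : ℝ) - 1) * La x y i j - ((i : ℝ) - 1) * La x y k l) *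
        (((s : ℝ) - 1) * La x y i j - ((j : ℝ) - 1) * La x y r s)
      - (((l : ℝ) - 1) * La x y i j - ((j : ℝ) - 1) * La x y k l) *
        (((r : ℝ) - 1) * La x y i j - ((i : ℝ) - 1) * La x y r s)
      = La x y i j * (S3 x y * ((gar i j k l r s : ℤ) : ℝ)) := by
  simp only [La, gar]
  push_cast
  ring

theorem Real4.ar_La (H : Real4 m n x y) {i j k l r s : ℕ} (hi : i < m) (hj : j < n) (hk : k < m)
    (hl : l < n) (hr : r < m) (hs : s < n) :
    arG x y i j k l r s * (La x y i j * La x y k l * La x y r s)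
      = (S0 x y * S1 x y * S2 x y * S3 x y) * ((gar i j k l r s : ℤ) : ℝ) := by
  have a1 : al x y i j * La x y i j = _ := H.al_eq hi hj
  have a2 : al x y k l * La x y k l = _ := H.al_eq hk hl
  have a3 : al x y r s * La x y r s = _ := H.al_eq hr hs
  have b1 : be x y i j * La x y i j = _ := H.be_eq hi hj
  have b2 : be x y k l * La x y k l = _ := H.be_eq hk hl
  have b3 : be x y r s * La x y r s = _ := H.be_eq hr hs
  have hd := det_al x y i j k l r s
  have hL := det_La x y i j k l r s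
  have h1 := H.La_ne hi hj
  have e1 : (al x y k l - al x y i j) * (La x y i j * La x y k l)
      = S0 x y * S1 x y * (((k : ℝ) - 1) * La x y i j - ((i : ℝ) - 1) * La x y k l) := by
    linear_combination La x y i j * a2 - La x y k l * a1
  have e2 : (al x y r s - al x y i j) * (La x y i j * La x y r s)
      = S0 x y * S1 x y * (((r : ℝ) - 1) * La x y i j - ((i : ℝ) - 1) * La x y r s) := by
    linear_combination La x y i j * a3 - La x y r s * a1
  have e3 : (be x y k l - be x y i j) * (La x y i j * La x y k l)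
      = S0 x y * S2 x y * (((l : ℝ) - 1) * La x y i j - ((j : ℝ) - 1) * La x y k l) := by
    linear_combination La x y i j * b2 - La x y k l * b1
  have e4 : (be x y r s - be x y i j) * (La x y i j * La x y r s)
      = S0 x y * S2 x y * (((s : ℝ) - 1) * La x y i j - ((j : ℝ) - 1) * La x y r s) := by
    linear_combination La x y i j * b3 - La x y r s * b1
  apply mul_left_cancel₀ (mul_ne_zero H.S0_ne h1)
  have e5 : ((al x y k l - al x y i j) * (La x y i j * La x y k l)) *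
      ((be x y r s - be x y i j) * (La x y i j * La x y r s)) -
      ((be x y k l - be x y i j) * (La x y i j * La x y k l)) *
      ((al x y r s - al x y i j) * (La x y i j * La x y r s)) =
      S0 x y * arG x y i j k l r s * (La x y i j * La x y k l * La x y r s) * La x y i j := by
    linear_combination (La x y i j * La x y k l * (La x y i j * La x y r s)) * hd
  rw [e1, e2, e3, e4] at e5
  linear_combination -e5 + (S0 x y * S1 x y) * (S0 x y * S2 x y) * hL

/-- Signs of the third coordinates. -/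
theorem Real4.trip_pos (H : Real4 m n x y)
    (hor : ∀ i < m, ∀ j < n, ∀ k < m, ∀ l < n, ∀ r < m, ∀ s < n,
      SignType.sign (arG x y i j k l r s) = SignType.sign ((gar i j k l r s : ℤ) : ℝ))
    {i j k l r s : ℕ} (hi : i < m) (hj : j < n) (hk : k < m)
    (hl : l < n) (hr : r < m) (hs : s < n) (hg : gar i j k l r s ≠ 0) :
    0 < (S0 x y * S1 x y * S2 x y * S3 x y) * (La x y i j * La x y k l * La x y r s) := by
  have h1 := H.ar_La hi hj hk hl hr hs
  have h2 := hor i hi j hj k hk l hl r hr s hs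
  have hP : S0 x y * S1 x y * S2 x y * S3 x y ≠ 0 :=
    mul_ne_zero (mul_ne_zero (mul_ne_zero H.S0_ne H.S1_ne) H.S2_ne) H.S3_ne
  have hgr : ((gar i j k l r s : ℤ) : ℝ) ≠ 0 := by exact_mod_cast hg
  set P := S0 x y * S1 x y * S2 x y * S3 x y
  set g := ((gar i j k l r s : ℤ) : ℝ)
  set A := arG x y i j k l r s
  set L := La x y i j * La x y k l * La x y r s
  have hAg : 0 < A * g := by
    rcases lt_or_gt_of_ne hgr with h | h
    · rw [sign_neg h] at h2
      have : A < 0 := sign_eq_neg_one_iff.1 h2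
      exact mul_pos_of_neg_of_neg this h
    · rw [sign_pos h] at h2
      have : 0 < A := sign_eq_one_iff.1 h2
      exact mul_pos this h
  have h3 : (A * g) * (P * L) = (P * g) ^ 2 := by linear_combination (P * g) * h1
  have h4 : 0 < (P * g) ^ 2 := by positivity
  rw [← h3] at h4
  exact (mul_pos_iff_of_pos_left hAg).1 h4

theorem Real4.La_pos (H : Real4 m n x y)
    (hor : ∀ i < m, ∀ j < n, ∀ k < m, ∀ l < n, ∀ r < m, ∀ s < n,
      SignType.sign (arG x y i j k l r s) = SignType.sign ((gar i j k l r s : ℤ) : ℝ))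
    {i j : ℕ} (hi : i < m) (hj : j < n) : 0 < La x y i j * La x y 0 0 := by
  have hm := H.hm
  have hn := H.hn
  have key : ∀ k < 2, ∀ l < 2, ∀ r < 2, ∀ s < 2, gar i j k l r s ≠ 0 → gar 0 0 k l r s ≠ 0 →
      0 < La x y i j * La x y 0 0 := by
    intro k hk l hl r hr s hs g1 g2
    have p1 := H.trip_pos hor hi hj (k := k) (l := l) (r := r) (s := s) (by omega) (by omega)
      (by omega) (by omega) g1
    have p2 := H.trip_pos hor (i := 0) (j := 0) (by omega) (by omega) (k := k) (l := l) (r := r)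
      (s := s) (by omega) (by omega) (by omega) (by omega) g2
    have p3 := mul_pos p1 p2
    have p4 : ((S0 x y * S1 x y * S2 x y * S3 x y) * (La x y i j * La x y k l * La x y r s)) *
        ((S0 x y * S1 x y * S2 x y * S3 x y) * (La x y 0 0 * La x y k l * La x y r s)) =
        (La x y i j * La x y 0 0) *
          ((S0 x y * S1 x y * S2 x y * S3 x y) * (La x y k l * La x y r s)) ^ 2 := by ring
    rw [p4] at p3
    by_contra hcon
    push Not at hcon
    have := mul_nonpos_of_nonpos_of_nonneg hcon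
      (sq_nonneg ((S0 x y * S1 x y * S2 x y * S3 x y) * (La x y k l * La x y r s)))
    linarith
  by_cases h1 : i + j = 1
  · by_cases h2 : i = 1
    · have h3 : j = 0 := by omega
      subst h2 h3
      exact key 0 (by norm_num) 1 (by norm_num) 1 (by norm_num) 1 (by norm_num) (by decide)
        (by decide)
    · have h3 : j = 1 := by omega
      have h4 : i = 0 := by omega
      subst h3 h4
      exact key 1 (by norm_num) 0 (by norm_num) 1 (by norm_num) 1 (by norm_num) (by decide)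
        (by decide)
  · refine key 1 (by norm_num) 0 (by norm_num) 0 (by norm_num) 1 (by norm_num) ?_ (by decide)
    simp only [gar]
    push_cast
    intro hcon
    apply h1
    have : (i : ℤ) + j = 1 := by linear_combination -hcon
    exact_mod_cast this

/-- The value of a binary quadratic form. -/
def qf (e g f x y : ℚ) : ℚ := e * x ^ 2 + g * x * y + f * y ^ 2

/-- The rational system. -/
def Sys (m n : ℕ) : Prop :=
  ∃ e g f lam mu : ℚ, 0 < e ∧ g ^ 2 < 4 * e * f ∧
    (∀ i < m, ∀ j < n, 0 < 1 + lam * (i : ℚ) + mu * (j : ℚ)) ∧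
    ∀ i < m, ∀ j < n, ∀ k < m, ∀ l < n,
      IsSquare (qf e g f ((i : ℚ) - k + mu * ((i : ℚ) * l - (j : ℚ) * k))
        ((j : ℚ) - l - lam * ((i : ℚ) * l - (j : ℚ) * k)))

/-- Algebra: the numerators of the differences. -/
theorem num_eq {κ ga gb i j k l Z Z' X Y : ℚ} (hκ : κ ≠ 0)
    (hZ : Z = κ + gb * i + ga * j) (hZ' : Z' = κ + gb * k + ga * l)
    (hX : X = i - k + ga / κ * (i * l - j * k)) (hY : Y = j - l - gb / κ * (i * l - j * k)) :
    (i - 1) * Z' - (k - 1) * Z = (κ + gb) * X + ga * Y ∧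
    (j - 1) * Z' - (l - 1) * Z = gb * X + (κ + ga) * Y := by
  subst hZ hZ' hX hY
  constructor
  · field_simp
    ring
  · field_simp
    ring

theorem sys_of_real {m n : ℕ} {x y : ℕ → ℕ → ℝ} (H : Real4 m n x y)
    (hor : ∀ i < m, ∀ j < n, ∀ k < m, ∀ l < n, ∀ r < m, ∀ s < n,
      SignType.sign (arG x y i j k l r s) = SignType.sign ((gar i j k l r s : ℤ) : ℝ))
    (h : Int2 x y) : Sys m n := by
  obtain ⟨G, hG⟩ := int_ar2 h 1 1 2 1 1 2 1 1 2 1 1 2
  obtain ⟨a, ha⟩ := int_ar2 h 1 1 2 1 1 2 1 1 2 2 1 2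
  obtain ⟨b, hb⟩ := int_ar2 h 1 1 2 1 1 2 1 1 2 1 2 2
  have hG' : (G : ℝ) = 4 * S0 x y * S0 x y := hG
  have ha' : (a : ℝ) = 4 * S0 x y * S1 x y := ha
  have hb' : (b : ℝ) = 4 * S0 x y * S2 x y := hb
  obtain ⟨e, he⟩ := h 2 1 1 1
  obtain ⟨f, hf⟩ := h 1 2 1 1
  obtain ⟨g, hg⟩ := int_dot h 1 1 2 1 1 1 1 2
  choose A hA using fun i j : ℕ => int_ar2 h 1 1 2 1 1 2 1 1 i j 1 2
  choose B hB using fun i j : ℕ => int_ar2 h 1 1 2 1 1 2 1 1 2 1 i j
  have hA' : ∀ i j, (A i j : ℝ) = 4 * S0 x y * al x y i j := hA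
  have hB' : ∀ i j, (B i j : ℝ) = 4 * S0 x y * be x y i j := hB
  have h0 := H.S0_ne
  have h1 := H.S1_ne
  have h2 := H.S2_ne
  have h3 := H.S3_ne
  have hm := H.hm
  have hn := H.hn
  have hZ : ∀ i j : ℕ, ((Zf G a b i j : ℤ) : ℝ) = 4 * S0 x y * La x y i j := by
    intro i j
    simp only [Zf, La]
    push_cast
    rw [hG', ha', hb', S3_eq]; ring
  have hGpos : 0 < G := by
    have : (0 : ℝ) < (G : ℝ) := by
      rw [hG']
      have : 4 * S0 x y * S0 x y = (2 * S0 x y) ^ 2 := by ring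
      rw [this]; positivity
    exact_mod_cast this
  have ha0 : a ≠ 0 := by
    have : (a : ℝ) ≠ 0 := by rw [ha']; exact mul_ne_zero (mul_ne_zero (by norm_num) h0) h1
    exact_mod_cast this
  have hb0 : b ≠ 0 := by
    have : (b : ℝ) ≠ 0 := by rw [hb']; exact mul_ne_zero (mul_ne_zero (by norm_num) h0) h2
    exact_mod_cast this
  have hc0 : a + b - G ≠ 0 := by
    have : ((a + b - G : ℤ) : ℝ) ≠ 0 := by
      have e1 : ((a + b - G : ℤ) : ℝ) = 4 * S0 x y * S3 x y := by
        push_cast; rw [ha', hb', hG', S3_eq]; ring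
      rw [e1]; exact mul_ne_zero (mul_ne_zero (by norm_num) h0) h3
    exact_mod_cast this
  have hdisc : G = 4 * e ^ 2 * f ^ 2 - g ^ 2 := by
    have : (G : ℝ) = ((4 * e ^ 2 * f ^ 2 - g ^ 2 : ℤ) : ℝ) := by
      push_cast
      rw [hG', hg, ← he, ← hf]
      simp only [S0, arG, ar]
      ring
    exact_mod_cast this
  have hAZ : ∀ i < m, ∀ j < n, A i j * Zf G a b i j = G * a * ((i : ℤ) - 1) := by
    intro i hi j hj
    have : ((A i j * Zf G a b i j : ℤ) : ℝ) = ((G * a * ((i : ℤ) - 1) : ℤ) : ℝ) := by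
      push_cast
      rw [hZ, hA', hG', ha']
      have := H.al_eq hi hj
      simp only [La]
      linear_combination 16 * S0 x y * S0 x y * this
    exact_mod_cast this
  have hBZ : ∀ i < m, ∀ j < n, B i j * Zf G a b i j = G * b * ((j : ℤ) - 1) := by
    intro i hi j hj
    have : ((B i j * Zf G a b i j : ℤ) : ℝ) = ((G * b * ((j : ℤ) - 1) : ℤ) : ℝ) := by
      push_cast
      rw [hZ, hB', hG', hb']
      have := H.be_eq hi hj
      simp only [La]
      linear_combination 16 * S0 x y * S0 x y * this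
    exact_mod_cast this
  have hsq : ∀ i j k l : ℕ, ∃ d : ℤ, e ^ 2 * (A i j - A k l) ^ 2
      + g * (A i j - A k l) * (B i j - B k l) + f ^ 2 * (B i j - B k l) ^ 2 = (G * d) ^ 2 := by
    intro i j k l
    obtain ⟨d, hd⟩ := h i j k l
    refine ⟨d, ?_⟩
    have : ((e ^ 2 * (A i j - A k l) ^ 2 + g * (A i j - A k l) * (B i j - B k l)
      + f ^ 2 * (B i j - B k l) ^ 2 : ℤ) : ℝ) = (((G * d) ^ 2 : ℤ) : ℝ) := by
      push_cast
      have h1 : ((G : ℝ) * d) ^ 2 = G ^ 2 * (d : ℝ) ^ 2 := by ring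
      rw [h1, ← hd, hg, ← he, ← hf]
      refine form_eq ?_ ?_
      · rw [hA', hA', hB', hB', hG']
        linear_combination 4 * S0 x y * fx x y i j - 4 * S0 x y * fx x y k l
      · rw [hA', hA', hB', hB', hG']
        linear_combination 4 * S0 x y * fy x y i j - 4 * S0 x y * fy x y k l
    exact_mod_cast this
  set κ : ℤ := Zf G a b 0 0 with hκ
  have hκ0 : κ ≠ 0 := by
    have : (κ : ℝ) ≠ 0 := by
      rw [hκ, hZ]
      exact mul_ne_zero (mul_ne_zero (by norm_num) h0) (H.La_ne (by omega) (by omega))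
    exact_mod_cast this
  have hκq : (κ : ℚ) ≠ 0 := by exact_mod_cast hκ0
  have hZκ : ∀ i j : ℕ, ((Zf G a b i j : ℤ) : ℚ) = (κ : ℚ) + (G - b) * i + (G - a) * j := by
    intro i j
    rw [hκ]; simp only [Zf]; push_cast; ring
  -- the coefficients
  set p1 : ℚ := a * (κ + (G - b)) with hp1
  set p2 : ℚ := a * (G - a) with hp2
  set p3 : ℚ := b * (G - b) with hp3
  set p4 : ℚ := b * (κ + (G - a)) with hp4
  have hdet : p1 * p4 - p2 * p3 ≠ 0 := by
    have e1 : p1 * p4 - p2 * p3 = a * b * κ * (a + b - G) := by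
      rw [hp1, hp2, hp3, hp4, hκ]; simp only [Zf]; push_cast; ring
    rw [e1]
    have : (a * b * κ * (a + b - G) : ℤ) ≠ 0 :=
      mul_ne_zero (mul_ne_zero (mul_ne_zero ha0 hb0) hκ0) hc0
    exact_mod_cast this
  have hGq : (G : ℚ) = 4 * e ^ 2 * f ^ 2 - g ^ 2 := by exact_mod_cast hdisc
  have hGqpos : (0 : ℚ) < G := by exact_mod_cast hGpos
  have heq0 : (e : ℚ) ≠ 0 := by
    intro h
    rw [h] at hGq
    nlinarith [sq_nonneg (g : ℚ)]
  refine ⟨e ^ 2 * p1 ^ 2 + g * p1 * p3 + f ^ 2 * p3 ^ 2,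
    2 * e ^ 2 * p1 * p2 + g * (p1 * p4 + p2 * p3) + 2 * f ^ 2 * p3 * p4,
    e ^ 2 * p2 ^ 2 + g * p2 * p4 + f ^ 2 * p4 ^ 2, (G - b) / κ, (G - a) / κ, ?_, ?_, ?_, ?_⟩
  · have e1 : 4 * (e : ℚ) ^ 2 * (e ^ 2 * p1 ^ 2 + g * p1 * p3 + f ^ 2 * p3 ^ 2)
        = (2 * e ^ 2 * p1 + g * p3) ^ 2 + G * p3 ^ 2 := by rw [hGq]; ring
    have e2 : 0 < (2 * (e : ℚ) ^ 2 * p1 + g * p3) ^ 2 + G * p3 ^ 2 := by
      by_cases hp : p3 = 0
      · have hp1' : p1 ≠ 0 := by
          intro h; apply hdet; rw [h, hp]; ring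
        rw [hp]
        have : (2 * (e : ℚ) ^ 2 * p1 + g * 0) ≠ 0 := by
          rw [mul_zero, add_zero]
          exact mul_ne_zero (mul_ne_zero (by norm_num) (pow_ne_zero _ heq0)) hp1'
        positivity
      · have : 0 < (G : ℚ) * p3 ^ 2 := by positivity
        positivity
    rw [← e1] at e2
    have e3 : 0 < 4 * (e : ℚ) ^ 2 := by positivity
    exact (mul_pos_iff_of_pos_left e3).1 e2
  · have e1 : 4 * ((e : ℚ) ^ 2 * p1 ^ 2 + g * p1 * p3 + f ^ 2 * p3 ^ 2)
        * (e ^ 2 * p2 ^ 2 + g * p2 * p4 + f ^ 2 * p4 ^ 2)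
        - (2 * e ^ 2 * p1 * p2 + g * (p1 * p4 + p2 * p3) + 2 * f ^ 2 * p3 * p4) ^ 2
        = G * (p1 * p4 - p2 * p3) ^ 2 := by rw [hGq]; ring
    have e2 : 0 < (G : ℚ) * (p1 * p4 - p2 * p3) ^ 2 := by positivity
    linarith
  · intro i hi j hj
    have e1 : 1 + ((G : ℚ) - b) / κ * i + (G - a) / κ * j = (Zf G a b i j : ℤ) / κ := by
      rw [hZκ i j]; field_simp
    rw [e1]
    have e2 : (0 : ℝ) < (Zf G a b i j : ℤ) * (κ : ℝ) := by
      rw [hκ, hZ, hZ]
      have := H.La_pos hor hi hj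
      have e3 : 4 * S0 x y * La x y i j * (4 * S0 x y * La x y 0 0)
        = (4 * S0 x y) ^ 2 * (La x y i j * La x y 0 0) := by ring
      rw [e3]; positivity
    have e4 : (0 : ℚ) < (Zf G a b i j : ℤ) * (κ : ℚ) := by
      have : 0 < Zf G a b i j * κ := by exact_mod_cast e2
      exact_mod_cast this
    have e5 : ((Zf G a b i j : ℤ) : ℚ) / κ = (Zf G a b i j : ℤ) * (κ : ℚ) / κ ^ 2 := by
      field_simp
    rw [e5]; positivity
  · intro i hi j hj k hk l hl
    obtain ⟨d, hd⟩ := hsq i j k l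
    obtain ⟨n1, n2⟩ := num_eq (κ := (κ : ℚ)) (ga := (G : ℚ) - a) (gb := (G : ℚ) - b) (i := (i : ℚ))
      (j := (j : ℚ)) (k := (k : ℚ)) (l := (l : ℚ)) hκq (hZκ i j) (hZκ k l) rfl rfl
    set X : ℚ := (i : ℚ) - k + (G - a) / κ * (i * l - j * k) with hX
    set Y : ℚ := (j : ℚ) - l - (G - b) / κ * (i * l - j * k) with hY
    refine ⟨d * (Zf G a b i j : ℤ) * (Zf G a b k l : ℤ), ?_⟩
    have A1 : ((A i j : ℤ) : ℚ) * (Zf G a b i j : ℤ) = G * a * (i - 1) := by
      exact_mod_cast hAZ i hi j hj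
    have A2 : ((A k l : ℤ) : ℚ) * (Zf G a b k l : ℤ) = G * a * (k - 1) := by
      exact_mod_cast hAZ k hk l hl
    have B1 : ((B i j : ℤ) : ℚ) * (Zf G a b i j : ℤ) = G * b * (j - 1) := by
      exact_mod_cast hBZ i hi j hj
    have B2 : ((B k l : ℤ) : ℚ) * (Zf G a b k l : ℤ) = G * b * (l - 1) := by
      exact_mod_cast hBZ k hk l hl
    have hdq : (e : ℚ) ^ 2 * (A i j - A k l) ^ 2 + g * (A i j - A k l) * (B i j - B k l)
        + f ^ 2 * (B i j - B k l) ^ 2 = (G * d) ^ 2 := by exact_mod_cast hd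
    set z : ℚ := ((Zf G a b i j : ℤ) : ℚ)
    set z' : ℚ := ((Zf G a b k l : ℤ) : ℚ)
    have u1 : ((A i j : ℚ) - A k l) * (z * z') = G * (p1 * X + p2 * Y) := by
      have : p1 * X + p2 * Y = a * (((i : ℚ) - 1) * z' - (k - 1) * z) := by
        rw [n1, hp1, hp2]; ring
      rw [this]; linear_combination z' * A1 - z * A2
    have u2 : ((B i j : ℚ) - B k l) * (z * z') = G * (p3 * X + p4 * Y) := by
      have : p3 * X + p4 * Y = b * (((j : ℚ) - 1) * z' - (l - 1) * z) := by
        rw [n2, hp3, hp4]; ring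
      rw [this]; linear_combination z' * B1 - z * B2
    have hG2 : (G : ℚ) ^ 2 ≠ 0 := by positivity
    apply mul_left_cancel₀ hG2
    have u3 : (e : ℚ) ^ 2 * ((A i j - A k l) * (z * z')) ^ 2
        + g * ((A i j - A k l) * (z * z')) * ((B i j - B k l) * (z * z'))
        + f ^ 2 * ((B i j - B k l) * (z * z')) ^ 2 = (G * d * (z * z')) ^ 2 := by
      linear_combination (z * z') ^ 2 * hdq
    rw [u1, u2] at u3
    simp only [qf]
    linear_combination u3

end Pool.H64.GRID
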