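import Pool.Agent.H64.GRID.Div

namespace Pool.H64.GRID

open Filter Asymptotics Topology

/-- The error terms in Chebyshev's bound are negligible. -/
theorem ev_bound : ∀ᶠ n : ℕ in atTop,
    Real.log ((n : ℝ) + 1) + 2 * √(n : ℝ) * Real.log n + (Real.log 18 + 1) ≤ (2 / 5) * (n : ℝ) := by
  have h1 : (fun x : ℝ => Real.log (x + 1)) =o[atTop] (fun x : ℝ => x) := by
    have ha : (fun x : ℝ => Real.log (x + 1)) =o[atTop] (fun x : ℝ => x + 1) :=
      Real.isLittleO_log_id_atTop.comp_tendsto (tendsto_atTop_add_const_right _ _ tendsto_id)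
    refine ha.trans_isBigO ?_
    have hb : (fun _ : ℝ => (1 : ℝ)) =o[atTop] (fun x : ℝ => x) := isLittleO_const_id_atTop 1
    exact (isBigO_refl _ _).add hb.isBigO
  have h2 : (fun x : ℝ => 2 * √x * Real.log x) =o[atTop] (fun x : ℝ => x) := by
    have ha : (fun x : ℝ => Real.log x) =o[atTop] (fun x : ℝ => x ^ (1 / 2 : ℝ)) :=
      isLittleO_log_rpow_atTop (by norm_num)
    have hb : (fun x : ℝ => 2 * √x * Real.log x) =o[atTop]
        (fun x : ℝ => (2 * √x) * x ^ (1 / 2 : ℝ)) := (isBigO_refl _ _).mul_isLittleO ha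
    refine hb.trans_isBigO ?_
    refine IsBigO.of_bound 2 ?_
    filter_upwards [eventually_ge_atTop (0 : ℝ)] with x hx
    rw [← Real.sqrt_eq_rpow, mul_assoc, Real.mul_self_sqrt hx, norm_mul]
    simp
  have h3 : (fun _ : ℝ => (Real.log 18 + 1 : ℝ)) =o[atTop] (fun x : ℝ => x) :=
    isLittleO_const_id_atTop _
  have h4 := (h1.add h2).add h3
  have h5 := h4.def (show (0 : ℝ) < 2 / 5 by norm_num)
  have h6 := tendsto_natCast_atTop_atTop (R := ℝ) |>.eventually h5
  filter_upwards [h6] with n hn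
  have h7 : (0 : ℝ) ≤ n := Nat.cast_nonneg n
  rw [Real.norm_eq_abs, Real.norm_eq_abs, abs_of_nonneg h7] at hn
  exact le_trans (le_abs_self _) hn

theorem exists_c : ∃ c : ℝ, 0 < c ∧ ∀ k : ℕ, 1 ≤ k → ∀ D : ℝ, 2 ≤ D →
    (primorial (k - 1) : ℝ) ≤ 18 * D ^ 8 → Real.exp (c * k) ≤ D := by
  obtain ⟨N, hN⟩ := eventually_atTop.1 ev_bound
  have hl2 : 0 < Real.log 2 := Real.log_pos (by norm_num)
  refine ⟨min (1 / 32) (Real.log 2 / (N + 1)), lt_min (by norm_num) (by positivity), ?_⟩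
  intro k hk D hD hp
  have hD0 : 0 < D := by linarith
  rw [← Real.le_log_iff_exp_le hD0]
  have hlD : Real.log 2 ≤ Real.log D := Real.log_le_log (by norm_num) hD
  have hk0 : (0 : ℝ) ≤ k := Nat.cast_nonneg k
  by_cases hkN : k ≤ N
  · have h1 : (k : ℝ) ≤ N + 1 := by
      have : (k : ℝ) ≤ N := by exact_mod_cast hkN
      linarith
    calc min (1 / 32) (Real.log 2 / (N + 1)) * (k : ℝ)
        ≤ (Real.log 2 / (N + 1)) * k := mul_le_mul_of_nonneg_right (min_le_right _ _) hk0
      _ ≤ (Real.log 2 / (N + 1)) * (N + 1) := mul_le_mul_of_nonneg_left h1 (by positivity)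
      _ = Real.log 2 := by field_simp
      _ ≤ Real.log D := hlD
  · push Not at hkN
    have h1 := hN (k - 1) (by omega)
    have h2 := Chebyshev.theta_ge (k - 1)
    have h3 : Chebyshev.theta ((k - 1 : ℕ) : ℝ) = Real.log (primorial (k - 1)) := by
      rw [Chebyshev.theta_eq_log_primorial, Nat.floor_natCast]
    have hpp : (0 : ℝ) < primorial (k - 1) := by exact_mod_cast primorial_pos (k - 1)
    have h4 : Real.log (primorial (k - 1)) ≤ Real.log (18 * D ^ 8) := Real.log_le_log hpp hp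
    rw [Real.log_mul (by norm_num) (by positivity), Real.log_pow] at h4
    have hc : ((k - 1 : ℕ) : ℝ) = (k : ℝ) - 1 := by
      rw [Nat.cast_sub hk]; simp
    have hl : (0.6931471803 : ℝ) < Real.log 2 := Real.log_two_gt_d9
    have h5 : min (1 / 32) (Real.log 2 / (N + 1)) * (k : ℝ) ≤ (1 / 32) * k :=
      mul_le_mul_of_nonneg_right (min_le_left _ _) hk0
    refine le_trans h5 ?_
    rw [h3] at h2
    rw [hc] at h1 h2
    have h6 : (0 : ℝ) ≤ (k : ℝ) - 1 := by
      have : (1 : ℝ) ≤ k := by exact_mod_cast hk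
      linarith
    have h7 : ((k : ℝ) - 1) * (69 / 100) ≤ ((k : ℝ) - 1) * Real.log 2 :=
      mul_le_mul_of_nonneg_left (by linarith) h6
    push_cast at h4
    linarith

end Pool.H64.GRID
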