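import Mathlib

namespace Pool.H64.GRID

/-- Twice the signed area of a triangle of grid points. -/
def gar (i j k l r s : ℕ) : ℤ :=
  ((k : ℤ) - i) * ((s : ℤ) - j) - ((l : ℤ) - j) * ((r : ℤ) - i)

/-- The determinant of three points in homogeneous coordinates. -/
def D3 (X Y Z : ℕ → ℕ → ℝ) (i j k l r s : ℕ) : ℝ :=
  X i j * (Y k l * Z r s - Y r s * Z k l) - Y i j * (X k l * Z r s - X r s * Z k l)
    + Z i j * (X k l * Y r s - X r s * Y k l)

/-- The points `(X, Y, Z)` have the collinearities of the `m × n` grid. -/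
def Col (m n : ℕ) (X Y Z : ℕ → ℕ → ℝ) : Prop :=
  ∀ i < m, ∀ j < n, ∀ k < m, ∀ l < n, ∀ r < m, ∀ s < n,
    (gar i j k l r s = 0 ↔ D3 X Y Z i j k l r s = 0)

/-- The point `(i, j)` is at its right place. -/
def Good (X Y Z : ℕ → ℕ → ℝ) (i j : ℕ) : Prop :=
  Z i j ≠ 0 ∧ X i j = ((i : ℝ) - 1) * Z i j ∧ Y i j = ((j : ℝ) - 1) * Z i j

theorem gar_cast {i j k l r s : ℕ} (h : gar i j k l r s = 0) :
    ((k : ℝ) - i) * ((s : ℝ) - j) - ((l : ℝ) - j) * ((r : ℝ) - i) = 0 := by
  have := congrArg (fun z : ℤ => (z : ℝ)) h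
  simpa [gar] using this

theorem rel {m n : ℕ} {X Y Z : ℕ → ℕ → ℝ} (h : Col m n X Y Z) {i j k l r s : ℕ}
    (hi : i < m) (hj : j < n) (hk : k < m) (hl : l < n) (hr : r < m) (hs : s < n)
    (g1 : Good X Y Z k l) (g2 : Good X Y Z r s) (hg : gar i j k l r s = 0) :
    (X i j - ((i : ℝ) - 1) * Z i j) * ((l : ℝ) - s)
      = (Y i j - ((j : ℝ) - 1) * Z i j) * ((k : ℝ) - r) := by
  have h1 := (h i hi j hj k hk l hl r hr s hs).1 hg
  have h2 := gar_cast hg
  obtain ⟨z1, x1, y1⟩ := g1
  obtain ⟨z2, x2, y2⟩ := g2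
  simp only [D3, x1, y1, x2, y2] at h1
  apply mul_left_cancel₀ (mul_ne_zero z1 z2)
  linear_combination h1 - Z k l * Z r s * Z i j * h2

theorem exists_noncol (i j : ℕ) :
    ∃ k < 2, ∃ l < 2, ∃ r < 2, ∃ s < 2, gar i j k l r s ≠ 0 := by
  by_contra hcon
  push Not at hcon
  have h1 := hcon 0 (by norm_num) 0 (by norm_num) 1 (by norm_num) 0 (by norm_num)
  have h2 := hcon 0 (by norm_num) 0 (by norm_num) 0 (by norm_num) 1 (by norm_num)
  have h3 := hcon 1 (by norm_num) 0 (by norm_num) 0 (by norm_num) 1 (by norm_num)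
  simp only [gar] at h1 h2 h3
  push_cast at h1 h2 h3
  have e1 : (j : ℤ) = 0 := by linarith
  have e2 : (i : ℤ) = 0 := by linarith
  rw [e1, e2] at h3
  norm_num at h3

theorem good_of_two {m n : ℕ} {X Y Z : ℕ → ℕ → ℝ} (h : Col m n X Y Z) (hm : 2 ≤ m) (hn : 2 ≤ n)
    {i j k l r s k' l' r' s' : ℕ}
    (hi : i < m) (hj : j < n) (hk : k < m) (hl : l < n) (hr : r < m) (hs : s < n)
    (hk' : k' < m) (hl' : l' < n) (hr' : r' < m) (hs' : s' < n)
    (g1 : Good X Y Z k l) (g2 : Good X Y Z r s) (hg : gar i j k l r s = 0)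
    (g1' : Good X Y Z k' l') (g2' : Good X Y Z r' s') (hg' : gar i j k' l' r' s' = 0)
    (hd : ((l : ℤ) - s) * ((k' : ℤ) - r') - ((l' : ℤ) - s') * ((k : ℤ) - r) ≠ 0) :
    Good X Y Z i j := by
  have e1 := rel h hi hj hk hl hr hs g1 g2 hg
  have e2 := rel h hi hj hk' hl' hr' hs' g1' g2' hg'
  have hd' : ((l : ℝ) - s) * ((k' : ℝ) - r') - ((l' : ℝ) - s') * ((k : ℝ) - r) ≠ 0 := by
    exact_mod_cast hd
  have hx : X i j = ((i : ℝ) - 1) * Z i j := by
    have : (((l : ℝ) - s) * ((k' : ℝ) - r') - ((l' : ℝ) - s') * ((k : ℝ) - r))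
        * (X i j - ((i : ℝ) - 1) * Z i j) = 0 := by
      linear_combination ((k' : ℝ) - r') * e1 - ((k : ℝ) - r) * e2
    rcases mul_eq_zero.1 this with h0 | h0
    · exact absurd h0 hd'
    · exact sub_eq_zero.1 h0
  have hy : Y i j = ((j : ℝ) - 1) * Z i j := by
    have : (((l : ℝ) - s) * ((k' : ℝ) - r') - ((l' : ℝ) - s') * ((k : ℝ) - r))
        * (Y i j - ((j : ℝ) - 1) * Z i j) = 0 := by
      linear_combination ((l' : ℝ) - s') * e1 - ((l : ℝ) - s) * e2
    rcases mul_eq_zero.1 this with h0 | h0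
    · exact absurd h0 hd'
    · exact sub_eq_zero.1 h0
  refine ⟨?_, hx, hy⟩
  intro hz
  rw [hz, mul_zero] at hx hy
  obtain ⟨a, ha, b, hb, c, hc, d, hd0, hne⟩ := exists_noncol i j
  apply hne
  rw [h i hi j hj a (by omega) b (by omega) c (by omega) d (by omega)]
  simp only [D3, hx, hy, hz]
  ring

theorem elim {a b c d s w : ℝ} (n : ¬ (s = 0 ∧ w = 0)) (h1 : a * w + s * b = 0)
    (h2 : c * w + s * d = 0) : a * d = b * c := by
  by_contra hne
  have hne' : a * d - b * c ≠ 0 := sub_ne_zero.2 hne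
  apply n
  constructor
  · apply mul_left_cancel₀ hne'
    linear_combination a * h2 - c * h1
  · apply mul_left_cancel₀ hne'
    linear_combination d * h1 - b * h2

/-- The algebra of the rigidity of the `4 × 4` grid. -/
theorem core {A B C D y13 y23 y10 y20 s0 w0 s1 w1 s2 w2 s3 w3 : ℝ}
    (hA : 1 + A ≠ 0) (hB : 1 + B ≠ 0) (hC : 1 + C ≠ 0) (hD : 1 + D ≠ 0)
    (h23 : A * (y23 - 1) = 1) (h20 : B * y20 = -1) (h10 : D * y10 = -1) (h13 : C * (y13 - 1) = 1)
    (n0 : ¬ (s0 = 0 ∧ w0 = 0)) (n1 : ¬ (s1 = 0 ∧ w1 = 0)) (n2 : ¬ (s2 = 0 ∧ w2 = 0))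
    (n3 : ¬ (s3 = 0 ∧ w3 = 0))
    (a0 : A * w0 + s0 * (1 - A + B) = 0) (b0 : -(y10 * (w0 - s0)) + s0 * (1 - y20) = 0)
    (a1 : B * w1 + s1 * (1 + A - B) = 0) (b1 : -(y13 * (w1 - s1)) + (w1 - s1) - s1 * y23 = 0)
    (a2 : C * w2 + s2 * (1 + D - C) = 0) (b2 : -(y10 * s2) + s2 - y20 * (w2 - s2) = 0)
    (a3 : (1 + C) * (w3 - s3) + D * s3 = 0) (b3 : -(y13 * (w3 - s3)) + s3 * (1 - y23) = 0) :
    A = 1 ∧ B = 1 ∧ C = 1 ∧ D = 1 := by
  have b0' : B * w0 + s0 * (B * D + D - B) = 0 := by
    linear_combination B * D * b0 + B * (w0 - s0) * h10 + D * s0 * h20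
  have b1' : A * w1 + s1 * (C * (1 + A) - A) = 0 := by
    linear_combination -(A * C) * b1 - A * (w1 - s1) * h13 - C * s1 * h23
  have b2' : D * w2 + s2 * (B + B * D - D) = 0 := by
    linear_combination B * D * b2 + B * s2 * h10 + D * (w2 - s2) * h20
  have b3' : A * (1 + C) * (w3 - s3) + C * s3 = 0 := by
    linear_combination -(A * C) * b3 - A * (w3 - s3) * h13 - C * s3 * h23
  have e0 : A * D = B := by
    have := elim n0 a0 b0'
    apply mul_left_cancel₀ hB
    linear_combination this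
  have e1 : B * C = A := by
    have := elim n1 a1 b1'
    apply mul_left_cancel₀ hA
    linear_combination this
  have e2 : B * C = D := by
    have := elim n2 a2 b2'
    apply mul_left_cancel₀ hD
    linear_combination this
  have e3 : A * D = C := by
    have hs : s3 ≠ 0 := by
      intro h
      rw [h] at a3
      apply n3
      refine ⟨h, ?_⟩
      apply mul_left_cancel₀ hC
      linear_combination a3
    apply mul_left_cancel₀ hs
    linear_combination A * a3 - b3'
  have hA0 : A ≠ 0 := by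
    intro h; rw [h] at h23; norm_num at h23
  have h1 : B = C := e0.symm.trans e3
  have h2 : A = D := e1.symm.trans e2
  have h3 : A ^ 2 = B := by rw [← e0, ← h2]; ring
  have h4 : B ^ 2 = A := by
    have : B * B = A := by
      calc B * B = B * C := by rw [← h1]
        _ = A := e1
    rw [sq]; exact this
  have h5 : A ^ 3 = 1 := by
    apply mul_left_cancel₀ hA0
    have : A * A ^ 3 = (A ^ 2) ^ 2 := by ring
    rw [this, h3, h4, mul_one]
  have h6 : (A - 1) * (A ^ 2 + A + 1) = 0 := by linear_combination h5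
  have h7 : A = 1 := by
    rcases mul_eq_zero.1 h6 with h | h
    · exact sub_eq_zero.1 h
    · nlinarith [sq_nonneg (A + 1 / 2)]
  refine ⟨h7, ?_, ?_, ?_⟩
  · rw [← h3, h7]; norm_num
  · rw [← h1, ← h3, h7]; norm_num
  · rw [← h2, h7]

/-- Rigidity of the `4 × 4` block. -/
theorem block {m n : ℕ} {X Y Z : ℕ → ℕ → ℝ} (h : Col m n X Y Z) (hm : 4 ≤ m) (hn : 4 ≤ n)
    (g11 : Good X Y Z 1 1) (g21 : Good X Y Z 2 1) (g12 : Good X Y Z 1 2) (g22 : Good X Y Z 2 2) :
    Good X Y Z 0 1 ∧ Good X Y Z 0 2 ∧ Good X Y Z 3 1 ∧ Good X Y Z 3 2 := by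
  have R : ∀ i < 4, ∀ j < 4, ∀ k < 4, ∀ l < 4, ∀ r < 4, ∀ s < 4,
      (gar i j k l r s = 0 ↔ D3 X Y Z i j k l r s = 0) := by
    intro i hi j hj k hk l hl r hr s hs
    exact h i (by omega) j (by omega) k (by omega) l (by omega) r (by omega) s (by omega)
  have row : ∀ i < 4, ∀ j < 4, Good X Y Z 1 j → Good X Y Z 2 j →
      Y i j = ((j : ℝ) - 1) * Z i j := by
    intro i hi j hj u v
    have := rel h (i := i) (j := j) (by omega) (by omega) (by omega) (by omega) (by omega)
      (by omega) u v (by simp [gar])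
    push_cast at this
    linear_combination this
  have col : ∀ i < 4, ∀ j < 4, Good X Y Z i 1 → Good X Y Z i 2 →
      X i j = ((i : ℝ) - 1) * Z i j := by
    intro i hi j hj u v
    have := rel h (i := i) (j := j) (by omega) (by omega) (by omega) (by omega) (by omega)
      (by omega) u v (by simp [gar])
    push_cast at this
    linear_combination -this
  have dia : ∀ i < 4, X i i = Y i i := by
    intro i hi
    have := rel h (i := i) (j := i) (by omega) (by omega) (by omega) (by omega) (by omega)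
      (by omega) g11 g22 (by simp [gar])
    push_cast at this
    linear_combination -this
  have ant : ∀ i < 4, ∀ j < 4, i + j = 3 → X i j + Y i j = Z i j := by
    intro i hi j hj hij
    have hc : (i : ℝ) + j = 3 := by exact_mod_cast hij
    have hc' : (i : ℤ) + j = 3 := by exact_mod_cast hij
    have := rel h (i := i) (j := j) (by omega) (by omega) (by omega) (by omega) (by omega)
      (by omega) g12 g21 (by simp only [gar]; push_cast; linear_combination hc')
    push_cast at this
    linear_combination this + Z i j * hc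
  obtain ⟨z11, x11, y11⟩ := id g11
  obtain ⟨z21, x21, y21⟩ := id g21
  obtain ⟨z12, x12, y12⟩ := id g12
  obtain ⟨z22, x22, y22⟩ := id g22
  push_cast at x11 y11 x21 y21 x12 y12 x22 y22
  have r01 := row 0 (by norm_num) 1 (by norm_num) g11 g21
  have r31 := row 3 (by norm_num) 1 (by norm_num) g11 g21
  have r02 := row 0 (by norm_num) 2 (by norm_num) g12 g22
  have r32 := row 3 (by norm_num) 2 (by norm_num) g12 g22
  have c10 := col 1 (by norm_num) 0 (by norm_num) g11 g12
  have c13 := col 1 (by norm_num) 3 (by norm_num) g11 g12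
  have c20 := col 2 (by norm_num) 0 (by norm_num) g21 g22
  have c23 := col 2 (by norm_num) 3 (by norm_num) g21 g22
  have d00 := dia 0 (by norm_num)
  have d33 := dia 3 (by norm_num)
  have t03 := ant 0 (by norm_num) 3 (by norm_num) (by norm_num)
  have t30 := ant 3 (by norm_num) 0 (by norm_num) (by norm_num)
  push_cast at r01 r31 r02 r32 c10 c13 c20 c23
  -- third coordinates
  have z01 : Z 0 1 ≠ 0 := by
    have := (R 0 (by norm_num) 1 (by norm_num) 1 (by norm_num) 2 (by norm_num) 2 (by norm_num)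
      2 (by norm_num)).not.1 (by decide)
    intro hz
    apply this
    simp only [D3, r01, x12, y12, x22, y22, hz]
    ring
  have z02 : Z 0 2 ≠ 0 := by
    have := (R 0 (by norm_num) 2 (by norm_num) 1 (by norm_num) 1 (by norm_num) 2 (by norm_num)
      1 (by norm_num)).not.1 (by decide)
    intro hz
    apply this
    simp only [D3, r02, x11, y11, x21, y21, hz]
    ring
  have z31 : Z 3 1 ≠ 0 := by
    have := (R 3 (by norm_num) 1 (by norm_num) 1 (by norm_num) 2 (by norm_num) 2 (by norm_num)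
      2 (by norm_num)).not.1 (by decide)
    intro hz
    apply this
    simp only [D3, r31, x12, y12, x22, y22, hz]
    ring
  have z32 : Z 3 2 ≠ 0 := by
    have := (R 3 (by norm_num) 2 (by norm_num) 1 (by norm_num) 1 (by norm_num) 2 (by norm_num)
      1 (by norm_num)).not.1 (by decide)
    intro hz
    apply this
    simp only [D3, r32, x11, y11, x21, y21, hz]
    ring
  have z10 : Z 1 0 ≠ 0 := by
    have := (R 1 (by norm_num) 0 (by norm_num) 2 (by norm_num) 1 (by norm_num) 2 (by norm_num)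
      2 (by norm_num)).not.1 (by decide)
    intro hz
    apply this
    simp only [D3, c10, x21, y21, x22, y22, hz]
    ring
  have z13 : Z 1 3 ≠ 0 := by
    have := (R 1 (by norm_num) 3 (by norm_num) 2 (by norm_num) 1 (by norm_num) 2 (by norm_num)
      2 (by norm_num)).not.1 (by decide)
    intro hz
    apply this
    simp only [D3, c13, x21, y21, x22, y22, hz]
    ring
  have z20 : Z 2 0 ≠ 0 := by
    have := (R 2 (by norm_num) 0 (by norm_num) 1 (by norm_num) 1 (by norm_num) 1 (by norm_num)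
      2 (by norm_num)).not.1 (by decide)
    intro hz
    apply this
    simp only [D3, c20, x11, y11, x12, y12, hz]
    ring
  have z23 : Z 2 3 ≠ 0 := by
    have := (R 2 (by norm_num) 3 (by norm_num) 1 (by norm_num) 1 (by norm_num) 1 (by norm_num)
      2 (by norm_num)).not.1 (by decide)
    intro hz
    apply this
    simp only [D3, c23, x11, y11, x12, y12, hz]
    ring
  obtain ⟨A, hA⟩ : ∃ A, X 0 1 = -(A * Z 0 1) := ⟨-(X 0 1 / Z 0 1), by field_simp⟩
  obtain ⟨B, hB⟩ : ∃ B, X 0 2 = -(B * Z 0 2) := ⟨-(X 0 2 / Z 0 2), by field_simp⟩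
  obtain ⟨C, hC⟩ : ∃ C, X 3 1 = (1 + C) * Z 3 1 := ⟨X 3 1 / Z 3 1 - 1, by field_simp; ring⟩
  obtain ⟨D, hD⟩ : ∃ D, X 3 2 = (1 + D) * Z 3 2 := ⟨X 3 2 / Z 3 2 - 1, by field_simp; ring⟩
  obtain ⟨y10, h10⟩ : ∃ y, Y 1 0 = y * Z 1 0 := ⟨Y 1 0 / Z 1 0, by field_simp⟩
  obtain ⟨y13, h13⟩ : ∃ y, Y 1 3 = y * Z 1 3 := ⟨Y 1 3 / Z 1 3, by field_simp⟩
  obtain ⟨y20, h20⟩ : ∃ y, Y 2 0 = y * Z 2 0 := ⟨Y 2 0 / Z 2 0, by field_simp⟩
  obtain ⟨y23, h23⟩ : ∃ y, Y 2 3 = y * Z 2 3 := ⟨Y 2 3 / Z 2 3, by field_simp⟩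
  -- distinctness
  have nA : 1 + A ≠ 0 := by
    have := (R 0 (by norm_num) 1 (by norm_num) 2 (by norm_num) 1 (by norm_num) 2 (by norm_num)
      2 (by norm_num)).not.1 (by decide)
    intro hz
    apply this
    simp only [D3, hA, r01, x21, y21, x22, y22]
    linear_combination Z 0 1 * Z 2 1 * Z 2 2 * hz
  have nB : 1 + B ≠ 0 := by
    have := (R 0 (by norm_num) 2 (by norm_num) 2 (by norm_num) 2 (by norm_num) 2 (by norm_num)
      1 (by norm_num)).not.1 (by decide)
    intro hz
    apply this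
    simp only [D3, hB, r02, x21, y21, x22, y22]
    linear_combination -(Z 0 2 * Z 2 1 * Z 2 2) * hz
  have nC : 1 + C ≠ 0 := by
    have := (R 3 (by norm_num) 1 (by norm_num) 1 (by norm_num) 1 (by norm_num) 1 (by norm_num)
      2 (by norm_num)).not.1 (by decide)
    intro hz
    apply this
    simp only [D3, hC, r31, x11, y11, x12, y12]
    linear_combination -(Z 3 1 * Z 1 1 * Z 1 2) * hz
  have nD : 1 + D ≠ 0 := by
    have := (R 3 (by norm_num) 2 (by norm_num) 1 (by norm_num) 2 (by norm_num) 1 (by norm_num)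
      1 (by norm_num)).not.1 (by decide)
    intro hz
    apply this
    simp only [D3, hD, r32, x11, y11, x12, y12]
    linear_combination (Z 3 2 * Z 1 1 * Z 1 2) * hz
  -- short diagonals
  have e23 : A * (y23 - 1) = 1 := by
    have := (R 0 (by norm_num) 1 (by norm_num) 1 (by norm_num) 2 (by norm_num) 2 (by norm_num)
      3 (by norm_num)).1 (by decide)
    simp only [D3, hA, r01, x12, y12, c23, h23] at this
    apply mul_left_cancel₀ (mul_ne_zero (mul_ne_zero z01 z12) z23)
    linear_combination this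
  have e20 : B * y20 = -1 := by
    have := (R 0 (by norm_num) 2 (by norm_num) 1 (by norm_num) 1 (by norm_num) 2 (by norm_num)
      0 (by norm_num)).1 (by decide)
    simp only [D3, hB, r02, x11, y11, c20, h20] at this
    apply mul_left_cancel₀ (mul_ne_zero (mul_ne_zero z02 z11) z20)
    linear_combination this
  have e10 : D * y10 = -1 := by
    have := (R 3 (by norm_num) 2 (by norm_num) 2 (by norm_num) 1 (by norm_num) 1 (by norm_num)
      0 (by norm_num)).1 (by decide)
    simp only [D3, hD, r32, x21, y21, c10, h10] at this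
    apply mul_left_cancel₀ (mul_ne_zero (mul_ne_zero z32 z21) z10)
    linear_combination -this
  have e13 : C * (y13 - 1) = 1 := by
    have := (R 3 (by norm_num) 1 (by norm_num) 2 (by norm_num) 2 (by norm_num) 1 (by norm_num)
      3 (by norm_num)).1 (by decide)
    simp only [D3, hC, r31, x22, y22, c13, h13] at this
    apply mul_left_cancel₀ (mul_ne_zero (mul_ne_zero z31 z22) z13)
    linear_combination -this
  -- corners
  have nz : ∀ i < 4, ∀ j < 4, ¬ (X i j = 0 ∧ Y i j = 0 ∧ Z i j = 0) := by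
    rintro i hi j hj ⟨u, v, w⟩
    obtain ⟨a, ha, b, hb, c, hc, d, hd0, hne⟩ := exists_noncol i j
    apply hne
    rw [R i hi j hj a (by omega) b (by omega) c (by omega) d (by omega)]
    simp only [D3, u, v, w]
    ring
  have n0 : ¬ (X 0 0 = 0 ∧ Z 0 0 = 0) := by
    rintro ⟨u, v⟩
    exact nz 0 (by norm_num) 0 (by norm_num) ⟨u, by rw [← d00, u], v⟩
  have n1 : ¬ (X 0 3 = 0 ∧ Z 0 3 = 0) := by
    rintro ⟨u, v⟩
    exact nz 0 (by norm_num) 3 (by norm_num) ⟨u, by linear_combination t03 - u + v, v⟩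
  have n2 : ¬ (Y 3 0 = 0 ∧ Z 3 0 = 0) := by
    rintro ⟨u, v⟩
    exact nz 3 (by norm_num) 0 (by norm_num) ⟨by linear_combination t30 - u + v, u, v⟩
  have n3 : ¬ (X 3 3 = 0 ∧ Z 3 3 = 0) := by
    rintro ⟨u, v⟩
    exact nz 3 (by norm_num) 3 (by norm_num) ⟨u, by rw [← d33, u], v⟩
  have a0 : A * Z 0 0 + X 0 0 * (1 - A + B) = 0 := by
    have := (R 0 (by norm_num) 1 (by norm_num) 0 (by norm_num) 2 (by norm_num) 0 (by norm_num)
      0 (by norm_num)).1 (by decide)
    simp only [D3, hA, r01, hB, r02, ← d00] at this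
    apply mul_left_cancel₀ (mul_ne_zero z01 z02)
    linear_combination -this
  have b0 : -(y10 * (Z 0 0 - X 0 0)) + X 0 0 * (1 - y20) = 0 := by
    have := (R 1 (by norm_num) 0 (by norm_num) 2 (by norm_num) 0 (by norm_num) 0 (by norm_num)
      0 (by norm_num)).1 (by decide)
    simp only [D3, c10, h10, c20, h20, ← d00] at this
    apply mul_left_cancel₀ (mul_ne_zero z10 z20)
    linear_combination this
  have a1 : B * Z 0 3 + X 0 3 * (1 + A - B) = 0 := by
    have := (R 0 (by norm_num) 1 (by norm_num) 0 (by norm_num) 2 (by norm_num) 0 (by norm_num)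
      3 (by norm_num)).1 (by decide)
    have hy : Y 0 3 = Z 0 3 - X 0 3 := by linear_combination t03
    simp only [D3, hA, r01, hB, r02, hy] at this
    apply mul_left_cancel₀ (mul_ne_zero z01 z02)
    linear_combination -this
  have b1 : -(y13 * (Z 0 3 - X 0 3)) + (Z 0 3 - X 0 3) - X 0 3 * y23 = 0 := by
    have := (R 1 (by norm_num) 3 (by norm_num) 2 (by norm_num) 3 (by norm_num) 0 (by norm_num)
      3 (by norm_num)).1 (by decide)
    have hy : Y 0 3 = Z 0 3 - X 0 3 := by linear_combination t03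
    simp only [D3, c13, h13, c23, h23, hy] at this
    apply mul_left_cancel₀ (mul_ne_zero z13 z23)
    linear_combination this
  have a2 : C * Z 3 0 + Y 3 0 * (1 + D - C) = 0 := by
    have := (R 3 (by norm_num) 1 (by norm_num) 3 (by norm_num) 2 (by norm_num) 3 (by norm_num)
      0 (by norm_num)).1 (by decide)
    have hx : X 3 0 = Z 3 0 - Y 3 0 := by linear_combination t30
    simp only [D3, hC, r31, hD, r32, hx] at this
    apply mul_left_cancel₀ (mul_ne_zero z31 z32)
    linear_combination this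
  have b2 : -(y10 * Y 3 0) + Y 3 0 - y20 * (Z 3 0 - Y 3 0) = 0 := by
    have := (R 1 (by norm_num) 0 (by norm_num) 2 (by norm_num) 0 (by norm_num) 3 (by norm_num)
      0 (by norm_num)).1 (by decide)
    have hx : X 3 0 = Z 3 0 - Y 3 0 := by linear_combination t30
    simp only [D3, c10, h10, c20, h20, hx] at this
    apply mul_left_cancel₀ (mul_ne_zero z10 z20)
    linear_combination this
  have a3 : (1 + C) * (Z 3 3 - X 3 3) + D * X 3 3 = 0 := by
    have := (R 3 (by norm_num) 1 (by norm_num) 3 (by norm_num) 2 (by norm_num) 3 (by norm_num)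
      3 (by norm_num)).1 (by decide)
    simp only [D3, hC, r31, hD, r32, ← d33] at this
    apply mul_left_cancel₀ (mul_ne_zero z31 z32)
    linear_combination this
  have b3 : -(y13 * (Z 3 3 - X 3 3)) + X 3 3 * (1 - y23) = 0 := by
    have := (R 1 (by norm_num) 3 (by norm_num) 2 (by norm_num) 3 (by norm_num) 3 (by norm_num)
      3 (by norm_num)).1 (by decide)
    simp only [D3, c13, h13, c23, h23, ← d33] at this
    apply mul_left_cancel₀ (mul_ne_zero z13 z23)
    linear_combination this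
  obtain ⟨fA, fB, fC, fD⟩ := core nA nB nC nD e23 e20 e10 e13 n0 n1 n2 n3 a0 b0 a1 b1 a2 b2 a3 b3
  refine ⟨⟨z01, ?_, ?_⟩, ⟨z02, ?_, ?_⟩, ⟨z31, ?_, ?_⟩, ⟨z32, ?_, ?_⟩⟩
  · rw [hA, fA]; push_cast; ring
  · push_cast; exact r01
  · rw [hB, fB]; push_cast; ring
  · push_cast; exact r02
  · rw [hC, fC]; push_cast; ring
  · push_cast; exact r31
  · rw [hD, fD]; push_cast; ring
  · push_cast; exact r32

/-- Rigidity of the `4 × 4` block, all points. -/
theorem block_all {m n : ℕ} {X Y Z : ℕ → ℕ → ℝ} (h : Col m n X Y Z) (hm : 4 ≤ m) (hn : 4 ≤ n)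
    (g11 : Good X Y Z 1 1) (g21 : Good X Y Z 2 1) (g12 : Good X Y Z 1 2) (g22 : Good X Y Z 2 2) :
    ∀ i < 4, ∀ j < 4, Good X Y Z i j := by
  obtain ⟨g01, g02, g31, g32⟩ := block h hm hn g11 g21 g12 g22
  have G2 : ∀ i < 4, ∀ j < 4, ∀ k < 4, ∀ l < 4, ∀ r < 4, ∀ s < 4, ∀ k' < 4, ∀ l' < 4,
      ∀ r' < 4, ∀ s' < 4, Good X Y Z k l → Good X Y Z r s → gar i j k l r s = 0 →
      Good X Y Z k' l' → Good X Y Z r' s' → gar i j k' l' r' s' = 0 →
      ((l : ℤ) - s) * ((k' : ℤ) - r') - ((l' : ℤ) - s') * ((k : ℤ) - r) ≠ 0 → Good X Y Z i j := by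
    intro i hi j hj k hk l hl r hr s hs k' hk' l' hl' r' hr' s' hs' g1 g2 e g1' g2' e' hd
    exact good_of_two h (by omega) (by omega) (by omega) (by omega) (by omega) (by omega)
      (by omega) (by omega) (by omega) (by omega) (by omega) (by omega) g1 g2 e g1' g2' e' hd
  have g23 : Good X Y Z 2 3 := G2 2 (by norm_num) 3 (by norm_num) 2 (by norm_num) 1 (by norm_num)
    2 (by norm_num) 2 (by norm_num) 0 (by norm_num) 1 (by norm_num) 1 (by norm_num)
    2 (by norm_num) g21 g22 (by decide) g01 g12 (by decide) (by norm_num)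
  have g20 : Good X Y Z 2 0 := G2 2 (by norm_num) 0 (by norm_num) 2 (by norm_num) 1 (by norm_num)
    2 (by norm_num) 2 (by norm_num) 0 (by norm_num) 2 (by norm_num) 1 (by norm_num)
    1 (by norm_num) g21 g22 (by decide) g02 g11 (by decide) (by norm_num)
  have g10 : Good X Y Z 1 0 := G2 1 (by norm_num) 0 (by norm_num) 1 (by norm_num) 1 (by norm_num)
    1 (by norm_num) 2 (by norm_num) 3 (by norm_num) 2 (by norm_num) 2 (by norm_num)
    1 (by norm_num) g11 g12 (by decide) g32 g21 (by decide) (by norm_num)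
  have g13 : Good X Y Z 1 3 := G2 1 (by norm_num) 3 (by norm_num) 1 (by norm_num) 1 (by norm_num)
    1 (by norm_num) 2 (by norm_num) 3 (by norm_num) 1 (by norm_num) 2 (by norm_num)
    2 (by norm_num) g11 g12 (by decide) g31 g22 (by decide) (by norm_num)
  have g00 : Good X Y Z 0 0 := G2 0 (by norm_num) 0 (by norm_num) 0 (by norm_num) 1 (by norm_num)
    0 (by norm_num) 2 (by norm_num) 1 (by norm_num) 1 (by norm_num) 2 (by norm_num)
    2 (by norm_num) g01 g02 (by decide) g11 g22 (by decide) (by norm_num)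
  have g03 : Good X Y Z 0 3 := G2 0 (by norm_num) 3 (by norm_num) 0 (by norm_num) 1 (by norm_num)
    0 (by norm_num) 2 (by norm_num) 1 (by norm_num) 2 (by norm_num) 2 (by norm_num)
    1 (by norm_num) g01 g02 (by decide) g12 g21 (by decide) (by norm_num)
  have g30 : Good X Y Z 3 0 := G2 3 (by norm_num) 0 (by norm_num) 3 (by norm_num) 1 (by norm_num)
    3 (by norm_num) 2 (by norm_num) 1 (by norm_num) 2 (by norm_num) 2 (by norm_num)
    1 (by norm_num) g31 g32 (by decide) g12 g21 (by decide) (by norm_num)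
  have g33 : Good X Y Z 3 3 := G2 3 (by norm_num) 3 (by norm_num) 3 (by norm_num) 1 (by norm_num)
    3 (by norm_num) 2 (by norm_num) 1 (by norm_num) 1 (by norm_num) 2 (by norm_num)
    2 (by norm_num) g31 g32 (by decide) g11 g22 (by decide) (by norm_num)
  intro i hi j hj
  interval_cases i <;> interval_cases j <;> assumption

/-- Rigidity of the grid, first four rows. -/
theorem rows_good {m n : ℕ} {X Y Z : ℕ → ℕ → ℝ} (h : Col m n X Y Z) (hm : 4 ≤ m) (hn : 4 ≤ n)
    (hb : ∀ i < 4, ∀ j < 4, Good X Y Z i j) :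
    ∀ i < m, ∀ j < 4, Good X Y Z i j := by
  intro i
  induction i using Nat.strong_induction_on with
  | _ i ih =>
    intro hi j hj
    by_cases hi4 : i < 4
    · exact hb i hi4 j hj
    · obtain ⟨a, rfl⟩ : ∃ a, i = a + 2 := ⟨i - 2, by omega⟩
      have hr0 := hb 0 (by norm_num) j hj
      have hr1 := hb 1 (by norm_num) j hj
      by_cases hj2 : 2 ≤ j
      · obtain ⟨b, rfl⟩ : ∃ b, j = b + 2 := ⟨j - 2, by omega⟩
        have g1 := ih (a + 1) (by omega) (by omega) (b + 1) (by omega)
        have g2 := ih a (by omega) (by omega) b (by omega)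
        refine good_of_two h (by omega) (by omega) (by omega) (by omega) (by omega) (by omega)
          (by omega) (by omega) (by omega) (by omega) (by omega) (by omega) hr0 hr1 ?_ g1 g2 ?_ ?_
        · simp only [gar]; push_cast; ring
        · simp only [gar]; push_cast; ring
        · intro hcon; push_cast at hcon; linarith
      · have g1 := ih (a + 1) (by omega) (by omega) (j + 1) (by omega)
        have g2 := ih a (by omega) (by omega) (j + 2) (by omega)
        refine good_of_two h (by omega) (by omega) (by omega) (by omega) (by omega) (by omega)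
          (by omega) (by omega) (by omega) (by omega) (by omega) (by omega) hr0 hr1 ?_ g1 g2 ?_ ?_
        · simp only [gar]; push_cast; ring
        · simp only [gar]; push_cast; ring
        · intro hcon; push_cast at hcon; linarith

/-- Rigidity of the grid. -/
theorem all_good {m n : ℕ} {X Y Z : ℕ → ℕ → ℝ} (h : Col m n X Y Z) (hm : 4 ≤ m) (hn : 4 ≤ n)
    (g11 : Good X Y Z 1 1) (g21 : Good X Y Z 2 1) (g12 : Good X Y Z 1 2) (g22 : Good X Y Z 2 2) :
    ∀ i < m, ∀ j < n, Good X Y Z i j := by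
  have hr := rows_good h hm hn (block_all h hm hn g11 g21 g12 g22)
  have key : ∀ j < n, ∀ i < m, Good X Y Z i j := by
    intro j
    induction j using Nat.strong_induction_on with
    | _ j ih =>
      intro hj i hi
      by_cases hj4 : j < 4
      · exact hr i hi j hj4
      · obtain ⟨b, rfl⟩ : ∃ b, j = b + 2 := ⟨j - 2, by omega⟩
        have hr0 := ih 0 (by omega) (by omega) i hi
        have hr1 := ih 1 (by omega) (by omega) i hi
        by_cases hi2 : 2 ≤ i
        · obtain ⟨a, rfl⟩ : ∃ a, i = a + 2 := ⟨i - 2, by omega⟩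
          have g1 := ih (b + 1) (by omega) (by omega) (a + 1) (by omega)
          have g2 := ih b (by omega) (by omega) a (by omega)
          refine good_of_two h (by omega) (by omega) (by omega) (by omega) (by omega) (by omega)
            (by omega) (by omega) (by omega) (by omega) (by omega) (by omega) hr0 hr1 ?_ g1 g2
            ?_ ?_
          · simp only [gar]; push_cast; ring
          · simp only [gar]; push_cast; ring
          · intro hcon; push_cast at hcon; linarith
        · have g1 := ih (b + 1) (by omega) (by omega) (i + 1) (by omega)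
          have g2 := ih b (by omega) (by omega) (i + 2) (by omega)
          refine good_of_two h (by omega) (by omega) (by omega) (by omega) (by omega) (by omega)
            (by omega) (by omega) (by omega) (by omega) (by omega) (by omega) hr0 hr1 ?_ g1 g2
            ?_ ?_
          · simp only [gar]; push_cast; ring
          · simp only [gar]; push_cast; ring
          · intro hcon; push_cast at hcon; linarith
  intro i hi j hj
  exact key j hj i hi

end Pool.H64.GRID
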