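import Pool.Agent.H64.GRID.Arith
import Pool.Agent.H64.GRID.Rigid

namespace Pool.H64.GRID

/-- Twice the signed area of the triangle with vertices `(a, a')`, `(b, b')`, `(c, c')`. -/
def ar (a a' b b' c c' : ℝ) : ℝ := (b - a) * (c' - a') - (b' - a') * (c - a)

section
variable (x y : ℕ → ℕ → ℝ)

/-- The function `ar` at grid points. -/
def arG (i j k l r s : ℕ) : ℝ := ar (x i j) (y i j) (x k l) (y k l) (x r s) (y r s)

/-- First affine coordinate (times `S0`). -/
def al (i j : ℕ) : ℝ := arG x y 1 1 i j 1 2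
/-- Second affine coordinate (times `S0`). -/
def be (i j : ℕ) : ℝ := arG x y 1 1 2 1 i j
/-- The four doubled areas of the frame. -/
def S0 : ℝ := arG x y 1 1 2 1 1 2
/-- The four doubled areas of the frame. -/
def S1 : ℝ := arG x y 1 1 2 2 1 2
/-- The four doubled areas of the frame. -/
def S2 : ℝ := arG x y 1 1 2 1 2 2
/-- The four doubled areas of the frame. -/
def S3 : ℝ := arG x y 2 1 2 2 1 2

theorem S3_eq : S3 x y = S1 x y + S2 x y - S0 x y := by
  simp only [S0, S1, S2, S3, arG, ar]; ring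

/-- Homogeneous coordinates. -/
def QX (i j : ℕ) : ℝ := S2 x y * S3 x y * al x y i j
/-- Homogeneous coordinates. -/
def QY (i j : ℕ) : ℝ := S1 x y * S3 x y * be x y i j
/-- Homogeneous coordinates. -/
def QZ (i j : ℕ) : ℝ := S0 x y * S1 x y * S2 x y - (S0 x y - S2 x y) * S2 x y * al x y i j
  - (S0 x y - S1 x y) * S1 x y * be x y i j

theorem det_al (i j k l r s : ℕ) :
    (al x y k l - al x y i j) * (be x y r s - be x y i j)
      - (be x y k l - be x y i j) * (al x y r s - al x y i j) = S0 x y * arG x y i j k l r s := by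
  simp only [S0, al, be, arG, ar]; ring

theorem D3_Q (i j k l r s : ℕ) : D3 (QX x y) (QY x y) (QZ x y) i j k l r s
    = (S0 x y * S1 x y * S2 x y * S3 x y) ^ 2 * arG x y i j k l r s := by
  have h := det_al x y i j k l r s
  have h3 := S3_eq x y
  have : D3 (QX x y) (QY x y) (QZ x y) i j k l r s
      = (S2 x y * S3 x y) * (S1 x y * S3 x y) * (S0 x y * S1 x y * S2 x y) *
        ((al x y k l - al x y i j) * (be x y r s - be x y i j)
      - (be x y k l - be x y i j) * (al x y r s - al x y i j)) := by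
    simp only [D3, QX, QY, QZ]; ring
  rw [this, h]; ring

end

/-- The hypotheses on the coordinates. -/
structure Real4 (m n : ℕ) (x y : ℕ → ℕ → ℝ) : Prop where
  hm : 4 ≤ m
  hn : 4 ≤ n
  col : ∀ i < m, ∀ j < n, ∀ k < m, ∀ l < n, ∀ r < m, ∀ s < n,
    (gar i j k l r s = 0 ↔ arG x y i j k l r s = 0)

variable {m n : ℕ} {x y : ℕ → ℕ → ℝ}

theorem Real4.S0_ne (H : Real4 m n x y) : S0 x y ≠ 0 := by
  have := H.hm; have := H.hn
  exact (H.col 1 (by omega) 1 (by omega) 2 (by omega) 1 (by omega) 1 (by omega) 2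
    (by omega)).not.1 (by decide)

theorem Real4.S1_ne (H : Real4 m n x y) : S1 x y ≠ 0 := by
  have := H.hm; have := H.hn
  exact (H.col 1 (by omega) 1 (by omega) 2 (by omega) 2 (by omega) 1 (by omega) 2
    (by omega)).not.1 (by decide)

theorem Real4.S2_ne (H : Real4 m n x y) : S2 x y ≠ 0 := by
  have := H.hm; have := H.hn
  exact (H.col 1 (by omega) 1 (by omega) 2 (by omega) 1 (by omega) 2 (by omega) 2
    (by omega)).not.1 (by decide)

theorem Real4.S3_ne (H : Real4 m n x y) : S3 x y ≠ 0 := by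
  have := H.hm; have := H.hn
  exact (H.col 2 (by omega) 1 (by omega) 2 (by omega) 2 (by omega) 1 (by omega) 2
    (by omega)).not.1 (by decide)

theorem Real4.Col (H : Real4 m n x y) : Col m n (QX x y) (QY x y) (QZ x y) := by
  intro i hi j hj k hk l hl r hr s hs
  rw [D3_Q, H.col i hi j hj k hk l hl r hr s hs]
  have h0 : (S0 x y * S1 x y * S2 x y * S3 x y) ^ 2 ≠ 0 :=
    pow_ne_zero _ (mul_ne_zero (mul_ne_zero (mul_ne_zero H.S0_ne H.S1_ne) H.S2_ne) H.S3_ne)
  constructor
  · intro h; rw [h, mul_zero]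
  · intro h; exact (mul_eq_zero.1 h).resolve_left h0

theorem Real4.good (H : Real4 m n x y) : ∀ i < m, ∀ j < n,
    Good (QX x y) (QY x y) (QZ x y) i j := by
  have h0 := H.S0_ne
  have h1 := H.S1_ne
  have h2 := H.S2_ne
  have h3 := H.S3_ne
  have e3 := S3_eq x y
  have a11 : al x y 1 1 = 0 := by simp only [al, arG, ar]; ring
  have b11 : be x y 1 1 = 0 := by simp only [be, arG, ar]; ring
  have a21 : al x y 2 1 = S0 x y := by simp only [al, S0]
  have b21 : be x y 2 1 = 0 := by simp only [be, arG, ar]; ring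
  have a12 : al x y 1 2 = 0 := by simp only [al, arG, ar]; ring
  have b12 : be x y 1 2 = S0 x y := by simp only [be, S0]
  have a22 : al x y 2 2 = S1 x y := by simp only [al, S1]
  have b22 : be x y 2 2 = S2 x y := by simp only [be, S2]
  refine all_good H.Col H.hm H.hn ⟨?_, ?_, ?_⟩ ⟨?_, ?_, ?_⟩ ⟨?_, ?_, ?_⟩ ⟨?_, ?_, ?_⟩
  · simp only [QZ, a11, b11, mul_zero, sub_zero]
    exact mul_ne_zero (mul_ne_zero h0 h1) h2
  · simp only [QX, a11]; push_cast; ring
  · simp only [QY, b11]; push_cast; ring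
  · have : QZ x y 2 1 = S0 x y * S2 x y * S3 x y := by
      simp only [QZ, a21, b21, e3]; ring
    rw [this]; exact mul_ne_zero (mul_ne_zero h0 h2) h3
  · simp only [QX, QZ, a21, b21, e3]; push_cast; ring
  · simp only [QY, b21]; push_cast; ring
  · have : QZ x y 1 2 = S0 x y * S1 x y * S3 x y := by
      simp only [QZ, a12, b12, e3]; ring
    rw [this]; exact mul_ne_zero (mul_ne_zero h0 h1) h3
  · simp only [QX, a12]; push_cast; ring
  · simp only [QY, QZ, a12, b12, e3]; push_cast; ring
  · have : QZ x y 2 2 = S1 x y * S2 x y * S3 x y := by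
      simp only [QZ, a22, b22, e3]; ring
    rw [this]; exact mul_ne_zero (mul_ne_zero h1 h2) h3
  · simp only [QX, QZ, a22, b22, e3]; push_cast; ring
  · simp only [QY, QZ, a22, b22, e3]; push_cast; ring

/-- The affine coordinates of all points in terms of the frame. -/
theorem Real4.al_eq (H : Real4 m n x y) {i j : ℕ} (hi : i < m) (hj : j < n) :
    al x y i j * ((S0 x y - S2 x y) * ((i : ℝ) - 1) + (S0 x y - S1 x y) * ((j : ℝ) - 1) + S3 x y)
      = S0 x y * S1 x y * ((i : ℝ) - 1) := by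
  obtain ⟨hz, hx, hy⟩ := H.good i hi j hj
  apply mul_left_cancel₀ hz
  simp only [QX] at hx
  simp only [QY] at hy
  have hw : S0 x y * S1 x y * S2 x y = QZ x y i j + (S0 x y - S2 x y) * S2 x y * al x y i j
    + (S0 x y - S1 x y) * S1 x y * be x y i j := by simp only [QZ]; ring
  linear_combination (-(al x y i j) * (S0 x y - S2 x y) + S0 x y * S1 x y) * hx
    - al x y i j * (S0 x y - S1 x y) * hy - al x y i j * S3 x y * hw

theorem Real4.be_eq (H : Real4 m n x y) {i j : ℕ} (hi : i < m) (hj : j < n) :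
    be x y i j * ((S0 x y - S2 x y) * ((i : ℝ) - 1) + (S0 x y - S1 x y) * ((j : ℝ) - 1) + S3 x y)
      = S0 x y * S2 x y * ((j : ℝ) - 1) := by
  obtain ⟨hz, hx, hy⟩ := H.good i hi j hj
  apply mul_left_cancel₀ hz
  simp only [QX] at hx
  simp only [QY] at hy
  have hw : S0 x y * S1 x y * S2 x y = QZ x y i j + (S0 x y - S2 x y) * S2 x y * al x y i j
    + (S0 x y - S1 x y) * S1 x y * be x y i j := by simp only [QZ]; ring
  linear_combination (-(be x y i j) * (S0 x y - S1 x y) + S0 x y * S2 x y) * hy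
    - be x y i j * (S0 x y - S2 x y) * hx - be x y i j * S3 x y * hw

end Pool.H64.GRID
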