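import Pool.Agent.H64.GRID.Defs
import Pool.Agent.H64.GRID.Fin
import Pool.Agent.H64.GRID.Constr

set_option autoImplicit false

namespace Pool.Grid

open Pool.H64.GRID

/-- Clamping of an index. -/
def cl (m : ℕ) (hm : 0 < m) (i : ℕ) : Fin m := ⟨min i (m - 1), by omega⟩

theorem cl_eq {m : ℕ} (hm : 0 < m) {i : ℕ} (hi : i < m) : cl m hm i = ⟨i, hi⟩ := by
  apply Fin.ext
  simp only [cl]
  omega

section
variable {m n : ℕ} (f : Fin m × Fin n → EuclideanSpace ℝ (Fin 2)) (hm : 0 < m) (hn : 0 < n)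

/-- Coordinates. -/
noncomputable def cx (i j : ℕ) : ℝ := f (cl m hm i, cl n hn j) 0
/-- Coordinates. -/
noncomputable def cy (i j : ℕ) : ℝ := f (cl m hm i, cl n hn j) 1

theorem arG_eq (i j k l r s : ℕ) : arG (cx f hm hn) (cy f hm hn) i j k l r s
    = area (f (cl m hm i, cl n hn j)) (f (cl m hm k, cl n hn l)) (f (cl m hm r, cl n hn s)) := rfl

theorem grid_area {i j k l r s : ℕ} (hi : i < m) (hj : j < n) (hk : k < m) (hl : l < n)
    (hr : r < m) (hs : s < n) :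
    area (gridPoint (cl m hm i, cl n hn j)) (gridPoint (cl m hm k, cl n hn l))
      (gridPoint (cl m hm r, cl n hn s)) = (gar i j k l r s : ℝ) := by
  rw [cl_eq hm hi, cl_eq hn hj, cl_eq hm hk, cl_eq hn hl, cl_eq hm hr, cl_eq hn hs]
  simp [area, gridPoint, gar]

theorem real4 (hf : IsRealization f) (h4 : 4 ≤ m) (h4' : 4 ≤ n) :
    Real4 m n (cx f hm hn) (cy f hm hn) := by
  refine ⟨h4, h4', ?_⟩
  intro i hi j hj k hk l hl r hr s hs
  have h := hf.2 (cl m hm i, cl n hn j) (cl m hm k, cl n hn l) (cl m hm r, cl n hn s)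
  rw [grid_area hm hn hi hj hk hl hr hs] at h
  rw [arG_eq, ← sign_eq_zero_iff (a := area _ _ _), h, sign_eq_zero_iff]
  exact_mod_cast Iff.rfl

theorem int2 (hf : IntegerDistances f) : Int2 (cx f hm hn) (cy f hm hn) := by
  intro i j k l
  obtain ⟨d, hd⟩ := hf (cl m hm i, cl n hn j) (cl m hm k, cl n hn l)
  refine ⟨d, ?_⟩
  rw [← hd, EuclideanSpace.dist_eq, Real.sq_sqrt (by positivity)]
  simp [cx, cy, Real.dist_eq, sq_abs]

theorem projective (hf : IsRealization f) (h4 : 4 ≤ m) (h4' : 4 ≤ n) : IsProjectiveImage f := by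
  have hm : 0 < m := by omega
  have hn : 0 < n := by omega
  have H := real4 f hm hn hf h4 h4'
  set x := cx f hm hn with hx
  set y := cy f hm hn with hy
  set s0 := S0 x y with hs0
  set s1 := S1 x y with hs1
  set s2 := S2 x y with hs2
  set s3 := S3 x y with hs3
  -- the rows of the matrix
  set a0 := y 1 2 - y 1 1 with ha0
  set a1 := -(x 1 2 - x 1 1) with ha1
  set a2 := y 1 1 * (x 1 2 - x 1 1) - x 1 1 * (y 1 2 - y 1 1) with ha2
  set b0 := -(y 2 1 - y 1 1) with hb0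
  set b1 := x 2 1 - x 1 1 with hb1
  set b2 := x 1 1 * (y 2 1 - y 1 1) - y 1 1 * (x 2 1 - x 1 1) with hb2
  set w0 := -((s0 - s2) * s2 * a0) - (s0 - s1) * s1 * b0 with hw0
  set w1 := -((s0 - s2) * s2 * a1) - (s0 - s1) * s1 * b1 with hw1
  set w2 := s0 * s1 * s2 - (s0 - s2) * s2 * a2 - (s0 - s1) * s1 * b2 with hw2
  have hal : ∀ i j, al x y i j = a0 * x i j + a1 * y i j + a2 := by
    intro i j; simp only [al, arG, ar, ha0, ha1, ha2]; ring
  have hbe : ∀ i j, be x y i j = b0 * x i j + b1 * y i j + b2 := by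
    intro i j; simp only [be, arG, ar, hb0, hb1, hb2]; ring
  have hS0 : a0 * b1 - a1 * b0 = s0 := by
    simp only [ha0, ha1, hb0, hb1, hs0, S0, arG, ar]; ring
  refine ⟨!![s2 * s3 * a0 + w0, s2 * s3 * a1 + w1, s2 * s3 * a2 + w2;
    s1 * s3 * b0 + w0, s1 * s3 * b1 + w1, s1 * s3 * b2 + w2; w0, w1, w2], ?_, ?_⟩
  · have hdet : Matrix.det !![s2 * s3 * a0 + w0, s2 * s3 * a1 + w1, s2 * s3 * a2 + w2;
        s1 * s3 * b0 + w0, s1 * s3 * b1 + w1, s1 * s3 * b2 + w2; w0, w1, w2]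
        = (s0 * s1 * s2 * s3) * (s1 * s2 * s3) * (a0 * b1 - a1 * b0) := by
      rw [Matrix.det_fin_three]
      simp only [Matrix.of_apply, Matrix.cons_val', Matrix.cons_val_zero, Matrix.cons_val_one,
        Matrix.cons_val, Matrix.cons_val_fin_one]
      simp only [hw0, hw1, hw2]
      ring
    rw [hdet, hS0]
    have h0 := H.S0_ne
    have h1 := H.S1_ne
    have h2 := H.S2_ne
    have h3 := H.S3_ne
    exact mul_ne_zero (mul_ne_zero (mul_ne_zero (mul_ne_zero (mul_ne_zero h0 h1) h2) h3)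
      (mul_ne_zero (mul_ne_zero h1 h2) h3)) h0
  · intro p
    obtain ⟨hz, hX, hY⟩ := H.good p.1 p.1.2 p.2 p.2.2
    refine ⟨QZ x y p.1 p.2, hz, ?_⟩
    have hp0 : f p 0 = x p.1 p.2 := by
      simp only [hx, cx, cl_eq hm p.1.2, cl_eq hn p.2.2]
    have hp1 : f p 1 = y p.1 p.2 := by
      simp only [hy, cy, cl_eq hm p.1.2, cl_eq hn p.2.2]
    have hQZ : QZ x y p.1 p.2 = w0 * x p.1 p.2 + w1 * y p.1 p.2 + w2 := by
      simp only [QZ, hal, hbe, hw0, hw1, hw2]; ring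
    have hQX : s2 * s3 * (a0 * x p.1 p.2 + a1 * y p.1 p.2 + a2)
        = (((p.1 : ℕ) : ℝ) - 1) * QZ x y p.1 p.2 := by
      rw [← hal]; exact hX
    have hQY : s1 * s3 * (b0 * x p.1 p.2 + b1 * y p.1 p.2 + b2)
        = (((p.2 : ℕ) : ℝ) - 1) * QZ x y p.1 p.2 := by
      rw [← hbe]; exact hY
    rw [hp0, hp1]
    ext k
    fin_cases k
    · simp [Matrix.mulVec, dotProduct, Fin.sum_univ_three]
      linear_combination hQX - hQZ
    · simp [Matrix.mulVec, dotProduct, Fin.sum_univ_three]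
      linear_combination hQY - hQZ
    · simp [Matrix.mulVec, dotProduct, Fin.sum_univ_three]
      linear_combination -hQZ

theorem two_le_diam (hf : IsRealization f) (hd : IntegerDistances f) (h4 : 4 ≤ m) (h4' : 4 ≤ n) :
    2 ≤ Metric.diam (Set.range f) := by
  have hm : 0 < m := by omega
  have hn : 0 < n := by omega
  have H := real4 f hm hn hf h4 h4'
  have hle : ∀ a b, dist (f a) (f b) ≤ Metric.diam (Set.range f) := fun a b =>
    Metric.dist_le_diam_of_mem (Set.finite_range f).isBounded ⟨a, rfl⟩ ⟨b, rfl⟩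
  by_contra hlt
  push Not at hlt
  have hone : ∀ a b, a ≠ b → dist (f a) (f b) = 1 := by
    intro a b hab
    obtain ⟨k, hk⟩ := hd a b
    have h1 : 0 < dist (f a) (f b) := dist_pos.2 (fun h => hab (hf.1 h))
    have h2 := lt_of_le_of_lt (hle a b) hlt
    rw [hk] at h1 h2 ⊢
    have h3 : 0 < k := by exact_mod_cast h1
    have h4 : k < 2 := by exact_mod_cast h2
    have : k = 1 := by omega
    rw [this]; norm_num
  have hsq : ∀ i k : ℕ, i < m → k < m → i ≠ k →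
      (cx f hm hn i 0 - cx f hm hn k 0) ^ 2 + (cy f hm hn i 0 - cy f hm hn k 0) ^ 2 = 1 := by
    intro i k hi hk hik
    have h1 := hone (cl m hm i, cl n hn 0) (cl m hm k, cl n hn 0) (by
      rw [cl_eq hm hi, cl_eq hm hk]
      intro h
      apply hik
      simpa using congrArg (fun q : Fin m × Fin n => (q.1 : ℕ)) h)
    have h2 := congrArg (fun t : ℝ => t ^ 2) h1
    rw [EuclideanSpace.dist_eq, Real.sq_sqrt (by positivity)] at h2
    simpa [cx, cy, Real.dist_eq, sq_abs] using h2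
  have h0 : arG (cx f hm hn) (cy f hm hn) 0 0 1 0 2 0 = 0 :=
    (H.col 0 (by omega) 0 (by omega) 1 (by omega) 0 (by omega) 2 (by omega) 0 (by omega)).1
      (by decide)
  have u := hsq 0 1 (by omega) (by omega) (by norm_num)
  have v := hsq 1 2 (by omega) (by omega) (by norm_num)
  have w := hsq 2 0 (by omega) (by omega) (by norm_num)
  have hE : 4 * arG (cx f hm hn) (cy f hm hn) 0 0 1 0 2 0 ^ 2 =
      2 * ((cx f hm hn 0 0 - cx f hm hn 1 0) ^ 2 + (cy f hm hn 0 0 - cy f hm hn 1 0) ^ 2)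
        * ((cx f hm hn 1 0 - cx f hm hn 2 0) ^ 2 + (cy f hm hn 1 0 - cy f hm hn 2 0) ^ 2)
      + 2 * ((cx f hm hn 1 0 - cx f hm hn 2 0) ^ 2 + (cy f hm hn 1 0 - cy f hm hn 2 0) ^ 2)
        * ((cx f hm hn 2 0 - cx f hm hn 0 0) ^ 2 + (cy f hm hn 2 0 - cy f hm hn 0 0) ^ 2)
      + 2 * ((cx f hm hn 2 0 - cx f hm hn 0 0) ^ 2 + (cy f hm hn 2 0 - cy f hm hn 0 0) ^ 2)
        * ((cx f hm hn 0 0 - cx f hm hn 1 0) ^ 2 + (cy f hm hn 0 0 - cy f hm hn 1 0) ^ 2)
      - ((cx f hm hn 0 0 - cx f hm hn 1 0) ^ 2 + (cy f hm hn 0 0 - cy f hm hn 1 0) ^ 2) ^ 2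
      - ((cx f hm hn 1 0 - cx f hm hn 2 0) ^ 2 + (cy f hm hn 1 0 - cy f hm hn 2 0) ^ 2) ^ 2
      - ((cx f hm hn 2 0 - cx f hm hn 0 0) ^ 2 + (cy f hm hn 2 0 - cy f hm hn 0 0) ^ 2) ^ 2 := by
    simp only [arG, ar]; ring
  rw [u, v, w, h0] at hE
  norm_num at hE

theorem primorial_le (hf : IsRealization f) (hd : IntegerDistances f) (h4 : 4 ≤ m) (h4' : 4 ≤ n) :
    (primorial (m * n - 1) : ℝ) ≤ 18 * Metric.diam (Set.range f) ^ 8 := by
  have hm : 0 < m := by omega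
  have hn : 0 < n := by omega
  have H := real4 f hm hn hf h4 h4'
  obtain ⟨N, hN0, hN, hdiv⟩ := prime_dvd_N H (int2 f hm hn hd)
  set D := Metric.diam (Set.range f) with hD
  have hD0 : 0 ≤ D := Metric.diam_nonneg
  have hle : ∀ i j k l : ℕ, (cx f hm hn i j - cx f hm hn k l) ^ 2
      + (cy f hm hn i j - cy f hm hn k l) ^ 2 ≤ D ^ 2 := by
    intro i j k l
    have h1 : dist (f (cl m hm i, cl n hn j)) (f (cl m hm k, cl n hn l)) ≤ D :=
      Metric.dist_le_diam_of_mem (Set.finite_range f).isBounded ⟨_, rfl⟩ ⟨_, rfl⟩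
    have h2 := pow_le_pow_left₀ dist_nonneg h1 2
    rw [EuclideanSpace.dist_eq, Real.sq_sqrt (by positivity)] at h2
    simpa [cx, cy, Real.dist_eq, sq_abs] using h2
  have hS : ∀ i j k l r s : ℕ, 4 * arG (cx f hm hn) (cy f hm hn) i j k l r s ^ 2 ≤ 3 * D ^ 4 :=
    fun i j k l r s => four_ar_sq_le (hle _ _ _ _) (hle _ _ _ _) (hle _ _ _ _)
  have h0 : 4 * S0 (cx f hm hn) (cy f hm hn) ^ 2 ≤ 3 * D ^ 4 := hS _ _ _ _ _ _
  have h1 : 4 * S1 (cx f hm hn) (cy f hm hn) ^ 2 ≤ 3 * D ^ 4 := hS _ _ _ _ _ _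
  have h2 : 4 * S2 (cx f hm hn) (cy f hm hn) ^ 2 ≤ 3 * D ^ 4 := hS _ _ _ _ _ _
  have h3 : 4 * S3 (cx f hm hn) (cy f hm hn) ^ 2 ≤ 3 * D ^ 4 := hS _ _ _ _ _ _
  have hNsq : (N : ℝ) ^ 2 ≤ (9 * D ^ 8) ^ 2 := by
    have e1 : (N : ℝ) ^ 2 = (4 * S0 (cx f hm hn) (cy f hm hn) ^ 2)
        * (4 * S1 (cx f hm hn) (cy f hm hn) ^ 2) * ((4 * S2 (cx f hm hn) (cy f hm hn) ^ 2)
        * (4 * S3 (cx f hm hn) (cy f hm hn) ^ 2)) := by
      rw [hN]; ring
    have e2 : (9 * D ^ 8) ^ 2 = (3 * D ^ 4) * (3 * D ^ 4) * ((3 * D ^ 4) * (3 * D ^ 4)) := by ring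
    rw [e1, e2]
    gcongr
  have hNabs : |(N : ℝ)| ≤ 9 * D ^ 8 := abs_le_of_sq_le_sq hNsq (by positivity)
  have hdvd : primorial (m * n - 1) ∣ (2 * N).natAbs := by
    rw [primorial]
    refine Finset.prod_primes_dvd _ ?_ ?_
    · intro p hp
      exact (Finset.mem_filter.1 hp).2.prime
    · intro p hp
      obtain ⟨hp1, hp2⟩ := Finset.mem_filter.1 hp
      have hlt : p < m * n := by
        have := Finset.mem_range.1 hp1
        have : 0 < m * n := Nat.mul_pos hm hn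
        omega
      by_cases h : p = 2
      · rw [h, Int.natAbs_mul]; exact Dvd.intro _ rfl
      · rw [Int.natAbs_mul]
        exact Dvd.dvd.mul_left (Int.natCast_dvd.1 (hdiv p hp2 h hlt)) _
  have h2N : 0 < (2 * N).natAbs := Int.natAbs_pos.2 (mul_ne_zero (by norm_num) hN0)
  have hle2 : (primorial (m * n - 1) : ℝ) ≤ ((2 * N).natAbs : ℝ) := by
    exact_mod_cast Nat.le_of_dvd h2N hdvd
  have habs : ((2 * N).natAbs : ℝ) = 2 * |(N : ℝ)| := by
    rw [Nat.cast_natAbs]; push_cast; rw [abs_mul]; norm_num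
  rw [habs] at hle2
  linarith

end

/-- The orientation condition in coordinates. -/
theorem orient {m n : ℕ} (f : Fin m × Fin n → EuclideanSpace ℝ (Fin 2)) (hm : 0 < m) (hn : 0 < n)
    (hf : IsRealization f) : ∀ i < m, ∀ j < n, ∀ k < m, ∀ l < n, ∀ r < m, ∀ s < n,
      SignType.sign (arG (cx f hm hn) (cy f hm hn) i j k l r s)
        = SignType.sign ((gar i j k l r s : ℤ) : ℝ) := by
  intro i hi j hj k hk l hl r hr s hs
  have h := hf.2 (cl m hm i, cl n hn j) (cl m hm k, cl n hn l) (cl m hm r, cl n hn s)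
  rw [grid_area hm hn hi hj hk hl hr hs] at h
  rw [arG_eq, h]

theorem system_of_hasInt {m n : ℕ} (h4 : 4 ≤ m) (h4' : 4 ≤ n) (h : HasIntegerRealization m n) :
    System m n := by
  obtain ⟨f, hf, hd⟩ := h
  have hm : 0 < m := by omega
  have hn : 0 < n := by omega
  exact sys_of_real (real4 f hm hn hf h4 h4') (orient f hm hn hf) (int2 f hm hn hd)

theorem hasInt_of_system {m n : ℕ} (h : System m n) : HasIntegerRealization m n := by
  obtain ⟨x, y, h1, h2, h3⟩ := real_of_sys (m := m) (n := n) h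
  refine ⟨fun p => !₂[x p.1 p.2, y p.1 p.2], ⟨?_, ?_⟩, ?_⟩
  · intro a b hab
    have e0 : x a.1 a.2 = x b.1 b.2 := by
      have := congrArg (fun v => v 0) hab
      simpa using this
    have e1 : y a.1 a.2 = y b.1 b.2 := by
      have := congrArg (fun v => v 1) hab
      simpa using this
    obtain ⟨i1, i2⟩ := h3 a.1 a.1.2 a.2 a.2.2 b.1 b.1.2 b.2 b.2.2 e0 e1
    exact Prod.ext (Fin.ext i1) (Fin.ext i2)
  · intro a b c
    have h := h1 a.1 a.1.2 a.2 a.2.2 b.1 b.1.2 b.2 b.2.2 c.1 c.1.2 c.2 c.2.2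
    have e1 : area (gridPoint a) (gridPoint b) (gridPoint c)
        = ((gar a.1 a.2 b.1 b.2 c.1 c.2 : ℤ) : ℝ) := by
      simp [area, gridPoint, gar]
    have e2 : area (!₂[x a.1 a.2, y a.1 a.2] : EuclideanSpace ℝ (Fin 2))
        (!₂[x b.1 b.2, y b.1 b.2] : EuclideanSpace ℝ (Fin 2))
        (!₂[x c.1 c.2, y c.1 c.2] : EuclideanSpace ℝ (Fin 2)) = arG x y a.1 a.2 b.1 b.2 c.1 c.2 := by
      simp [area, arG, ar]
    rw [e1, e2, h]
  · intro a b
    obtain ⟨d, hd⟩ := h2 a.1 a.1.2 a.2 a.2.2 b.1 b.1.2 b.2 b.2.2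
    refine ⟨|d|, ?_⟩
    rw [EuclideanSpace.dist_eq]
    have : ∑ i : Fin 2, dist ((!₂[x a.1 a.2, y a.1 a.2] : EuclideanSpace ℝ (Fin 2)) i)
        ((!₂[x b.1 b.2, y b.1 b.2] : EuclideanSpace ℝ (Fin 2)) i) ^ 2 = (d : ℝ) ^ 2 := by
      rw [← hd]
      simp [Fin.sum_univ_two, Real.dist_eq, sq_abs]
    rw [this, Real.sqrt_sq_eq_abs]
    push_cast
    rfl

/-- The theorem. -/
theorem main :
    (∀ m n : ℕ, System m n → HasIntegerRealization m n) ∧
    (∀ m n : ℕ, 4 ≤ m → 4 ≤ n → HasIntegerRealization m n → System m n) ∧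
    (∀ m n : ℕ, 4 ≤ m → 4 ≤ n → ∀ f : Fin m × Fin n → EuclideanSpace ℝ (Fin 2),
      IsRealization f → IsProjectiveImage f ∧
        (IntegerDistances f →
          (primorial (m * n - 1) : ℝ) ≤ 18 * Metric.diam (Set.range f) ^ 8)) ∧
    ∃ c : ℝ, 0 < c ∧ ∀ m n : ℕ, 4 ≤ m → 4 ≤ n →
      ∀ f : Fin m × Fin n → EuclideanSpace ℝ (Fin 2), IsRealization f → IntegerDistances f →
        Real.exp (c * (m * n)) ≤ Metric.diam (Set.range f) := by
  refine ⟨fun m n h => hasInt_of_system h, fun m n h4 h4' h => system_of_hasInt h4 h4' h,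
    fun m n hm hn f hf => ⟨projective f hf hm hn, fun hd => primorial_le f hf hd hm hn⟩, ?_⟩
  obtain ⟨c, hc, h⟩ := exists_c
  refine ⟨c, hc, fun m n hm hn f hf hd => ?_⟩
  have := h (m * n) (Nat.mul_pos (by omega) (by omega)) _ (two_le_diam f hf hd hm hn)
    (primorial_le f hf hd hm hn)
  push_cast at this
  exact this

end Pool.Grid
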